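import Pool.Agent.H159.SSq.Glue

/-!
# Counting shuffle squares over large alphabets: the growth rate (MP_e74ce2_co)
-/

set_option autoImplicit false

namespace Pool.Agent.H159.SSq

open Finset Filter Topology

/-- polynomial factors disappear in the `n`-th root -/
theorem root_tendsto {c : ℝ} (hc : 0 < c) :
    Tendsto (fun n : ℕ => (c / (n : ℝ) ^ 6) ^ ((1 : ℝ) / n)) atTop (𝓝 1) := by
  have h1 : Tendsto (fun n : ℕ => (c : ℝ) ^ ((1 : ℝ) / n)) atTop (𝓝 1) := by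
    have := (tendsto_const_nhds (x := c)).rpow (tendsto_one_div_atTop_nhds_zero_nat (𝕜 := ℝ))
      (Or.inl hc.ne')
    simpa using this
  have h2 : Tendsto (fun n : ℕ => ((n : ℝ) ^ ((1 : ℝ) / n))) atTop (𝓝 1) :=
    tendsto_rpow_div.comp tendsto_natCast_atTop_atTop
  have h3 := h1.div (h2.pow 6) (by norm_num)
  rw [one_pow, div_one] at h3
  apply h3.congr'
  filter_upwards [eventually_gt_atTop 0] with n hn
  have hn0 : (0 : ℝ) ≤ n := Nat.cast_nonneg n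
  simp only [Pi.div_apply]
  rw [Real.div_rpow hc.le (by positivity), ← Real.rpow_natCast (n : ℝ) 6, ← Real.rpow_mul hn0,
    ← Real.rpow_natCast ((n : ℝ) ^ ((1 : ℝ) / n)) 6, ← Real.rpow_mul hn0]
  congr 2
  ring

/-- upper bound for the growth rate -/
theorem L_le {f : ℕ → ℝ} {L a : ℝ} (hf0 : ∀ n, 0 ≤ f n) (ha : 0 ≤ a)
    (hL : Tendsto (fun n : ℕ => f n ^ ((1 : ℝ) / n)) atTop (𝓝 L))
    (hf : ∀ n : ℕ, f n ≤ a ^ n) : L ≤ a := by
  apply le_of_tendsto hL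
  filter_upwards [eventually_gt_atTop 0] with n hn
  calc f n ^ ((1 : ℝ) / n) ≤ (a ^ n) ^ ((1 : ℝ) / n) :=
        Real.rpow_le_rpow (hf0 n) (hf n) (by positivity)
    _ = a := by
        rw [one_div]
        exact Real.pow_rpow_inv_natCast ha hn.ne'

/-- lower bound for the growth rate -/
theorem le_L {f : ℕ → ℝ} {L a c : ℝ} (ha : 0 ≤ a) (hc : 0 < c)
    (hL : Tendsto (fun n : ℕ => f n ^ ((1 : ℝ) / n)) atTop (𝓝 L))
    (hf : ∀ n : ℕ, 2 ≤ n → c / (n : ℝ) ^ 6 * a ^ n ≤ f n) : a ≤ L := by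
  have h1 := (root_tendsto hc).mul_const a
  rw [one_mul] at h1
  apply le_of_tendsto_of_tendsto h1 hL
  filter_upwards [eventually_ge_atTop 2] with n hn
  have hn0 : (0 : ℝ) < n := by exact_mod_cast (by omega : 0 < n)
  calc (c / (n : ℝ) ^ 6) ^ ((1 : ℝ) / n) * a =
        (c / (n : ℝ) ^ 6) ^ ((1 : ℝ) / n) * (a ^ n) ^ ((1 : ℝ) / n) := by
        congr 1
        rw [one_div]
        exact (Real.pow_rpow_inv_natCast ha (by omega)).symm
    _ = (c / (n : ℝ) ^ 6 * a ^ n) ^ ((1 : ℝ) / n) := by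
        rw [Real.mul_rpow (by positivity) (by positivity)]
    _ ≤ f n ^ ((1 : ℝ) / n) := Real.rpow_le_rpow (by positivity) (hf n hn) (by positivity)

/-- from Cauchy–Schwarz to a lower bound -/
theorem cs_lower {K κ X s : ℝ} {n : ℕ} (hK : 0 < K) (hκ : 0 < κ) (hX : 0 < X) (hn : 1 ≤ n)
    (h : (K ^ n * (κ ^ 2 * (1 + κ) ^ (2 * n - 2) / (n : ℝ) ^ 3)) ^ 2 ≤
      s * (K ^ n * X ^ (2 * n))) :
    κ ^ 4 / (1 + κ) ^ 4 / (n : ℝ) ^ 6 * (K * (1 + κ) ^ 4 / X ^ 2) ^ n ≤ s := by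
  have hn0 : (0 : ℝ) < n := by exact_mod_cast hn
  have h1 : (1 + κ) ^ (2 * n - 2) = (1 + κ) ^ (2 * n) / (1 + κ) ^ 2 := by
    rw [eq_div_iff (by positivity), ← pow_add]
    congr 1
    omega
  rw [h1] at h
  have h2 : 0 < K ^ n * X ^ (2 * n) := by positivity
  rw [← div_le_iff₀ h2] at h
  refine le_trans (le_of_eq ?_) h
  rw [div_pow, mul_pow, ← pow_mul, ← pow_mul]
  field_simp
  ring

theorem final_ineq {K κ u : ℝ} (hK : 0 < K) (hκ0 : 0 < κ) (hκ1 : κ ≤ 1) (h2 : 1 ≤ κ + κ ^ 2)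
    (hu : 0 ≤ u) :
    K * (1 + κ) ^ 2 - 16 * (K * u) ≤ K * (1 + κ) ^ 4 / (1 + κ + 2 * u / κ) ^ 2 := by
  have hX : 0 < 1 + κ + 2 * u / κ := by positivity
  rw [le_div_iff₀ (by positivity)]
  -- `X ≤ (1 + κ) (1 + 2 u)`
  have hX1 : 1 + κ + 2 * u / κ ≤ (1 + κ) * (1 + 2 * u) := by
    have : 2 * u / κ ≤ (1 + κ) * (2 * u) := by
      rw [div_le_iff₀ hκ0]
      nlinarith
    linarith
  by_cases hneg : K * (1 + κ) ^ 2 - 16 * (K * u) ≤ 0
  · have : (K * (1 + κ) ^ 2 - 16 * (K * u)) * (1 + κ + 2 * u / κ) ^ 2 ≤ 0 :=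
      mul_nonpos_of_nonpos_of_nonneg hneg (by positivity)
    have h3 : 0 ≤ K * (1 + κ) ^ 4 := by positivity
    linarith
  · push Not at hneg
    have h3 : (1 + κ + 2 * u / κ) ^ 2 ≤ ((1 + κ) * (1 + 2 * u)) ^ 2 :=
      pow_le_pow_left₀ hX.le hX1 2
    have h4 : K * (1 + κ) ^ 2 - 16 * (K * u) ≤ K * (1 + κ) ^ 2 * (1 - 4 * u) := by
      have : (1 + κ) ^ 2 ≤ 4 := by nlinarith
      nlinarith [mul_nonneg hK.le hu]
    have h5 : (1 - 4 * u) * (1 + 2 * u) ^ 2 ≤ 1 := by nlinarith [mul_nonneg hu hu, mul_nonneg (mul_nonneg hu hu) hu]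
    calc (K * (1 + κ) ^ 2 - 16 * (K * u)) * (1 + κ + 2 * u / κ) ^ 2
        ≤ (K * (1 + κ) ^ 2 - 16 * (K * u)) * ((1 + κ) * (1 + 2 * u)) ^ 2 :=
          mul_le_mul_of_nonneg_left h3 hneg.le
      _ ≤ (K * (1 + κ) ^ 2 * (1 - 4 * u)) * ((1 + κ) * (1 + 2 * u)) ^ 2 :=
          mul_le_mul_of_nonneg_right h4 (by positivity)
      _ = K * (1 + κ) ^ 4 * ((1 - 4 * u) * (1 + 2 * u) ^ 2) := by ring
      _ ≤ K * (1 + κ) ^ 4 * 1 := mul_le_mul_of_nonneg_left h5 (by positivity)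
      _ = _ := by ring

/-- the main term -/
theorem main_term {K κ : ℝ} (hK : 1 ≤ K) (hκ : κ ^ 2 = (K - 1) / K) (hκ0 : 0 ≤ κ) :
    K * (1 + κ) ^ 2 ≤ 4 * K - 2 ∧ 4 * K - 2 - 1 / K ≤ K * (1 + κ) ^ 2 := by
  have hK0 : 0 < K := by linarith
  have h1 : K * κ ^ 2 = K - 1 := by rw [hκ]; field_simp
  have h2 : K * (1 + κ) ^ 2 = 2 * K - 1 + 2 * (K * κ) := by nlinarith
  have h3 : (K * κ) ^ 2 = K ^ 2 - K := by nlinarith
  have h4 : 0 ≤ K * κ := by positivity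
  constructor
  · rw [h2]
    nlinarith
  · rw [h2]
    have h5 : K - 1 / 2 - 1 / (2 * K) ≤ K * κ := by
      have h6 : (K - 1 / 2 - 1 / (2 * K)) ^ 2 ≤ (K * κ) ^ 2 := by
        rw [h3]
        have e : (K - 1 / 2 - 1 / (2 * K)) ^ 2 =
            K ^ 2 - K - 3 / 4 + 1 / 2 * (1 / K) + 1 / 4 * (1 / K) ^ 2 := by
          field_simp
          ring
        have h7 : 1 / K ≤ 1 := by
          rw [div_le_one hK0]
          exact hK
        have h8 : 0 ≤ 1 / K := by positivity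
        have h9 : (1 / K) ^ 2 ≤ 1 := by nlinarith
        rw [e]
        linarith
      exact (le_abs_self _).trans (abs_le_of_sq_le_sq h6 h4)
    have : 1 / K = 2 * (1 / (2 * K)) := by field_simp
    linarith

theorem cnt_eq_cz (k n : ℕ) : cnt (k + 1) n = cz (k + 1) n := rfl

theorem bounds (hp : S_pairs) (hd : S_dyck) (hZ : S_Z) (hcan : S_can) (hsq : S_sq) (hup : S_up)
    (hlow : S_low) (hcnt : S_cnt) {k : ℕ} (hk : 2 ≤ k) {L : ℝ}
    (hL : Tendsto (fun n : ℕ => (cnt k n : ℝ) ^ ((1 : ℝ) / n)) atTop (𝓝 L)) :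
    L ≤ 4 * (k : ℝ) - 2 ∧
      ∀ t : ℝ, t ^ 88 = (k : ℝ) - 1 → 6 ^ 5 ≤ t → 4 * (k : ℝ) - 2 - 1 / k - 32 / t ≤ L := by
  obtain ⟨k', rfl⟩ : ∃ k', k = k' + 1 := ⟨k - 1, by omega⟩
  simp only [cnt_eq_cz] at hL
  have hK2 : (2 : ℝ) ≤ ((k' + 1 : ℕ) : ℝ) := by exact_mod_cast hk
  set K : ℝ := ((k' + 1 : ℕ) : ℝ) with hKdef
  have hK0 : 0 < K := by linarith
  set κ : ℝ := Real.sqrt ((K - 1) / K) with hκdef
  have hq0 : 0 ≤ (K - 1) / K := div_nonneg (by linarith) hK0.le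
  have hκ : κ ^ 2 = (K - 1) / K := Real.sq_sqrt hq0
  have hκn : 0 ≤ κ := Real.sqrt_nonneg _
  have hq1 : (K - 1) / K ≤ 1 := by
    rw [div_le_one hK0]
    linarith
  have hq2 : 1 / 2 ≤ (K - 1) / K := by
    rw [le_div_iff₀ hK0]
    linarith
  have hκ1 : κ ≤ 1 := by nlinarith
  have hκh : 1 / 2 ≤ κ := by nlinarith
  have hκ0 : 0 < κ := by linarith
  have hκ2 : 1 ≤ κ + κ ^ 2 := by nlinarith
  obtain ⟨m1, m2⟩ := main_term (by linarith : (1 : ℝ) ≤ K) hκ hκn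
  constructor
  · refine le_trans (L_le (a := K * (1 + κ) ^ 2) (fun n => Nat.cast_nonneg _) (by positivity) hL
      ?_) m1
    intro n
    have := upper hcan hup hd (by omega : 1 ≤ k' + 1) n hκ0 hκ1 hκ2 hκ
    rw [mul_pow, ← pow_mul]
    exact this
  · intro t ht ht'
    have ht0 : (0 : ℝ) < t := lt_of_lt_of_le (by norm_num) ht'
    have hu : (0 : ℝ) ≤ 1 / t ^ 89 := by positivity
    have hX : 0 < 1 + κ + 2 * (1 / t ^ 89) / κ := by positivity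
    have h1 : K * (1 + κ) ^ 4 / (1 + κ + 2 * (1 / t ^ 89) / κ) ^ 2 ≤ L := by
      apply le_L (c := κ ^ 4 / (1 + κ) ^ 4) (by positivity) (by positivity) hL
      intro n hn
      exact cs_lower hK0 hκ0 hX (by omega)
        (lower hp hZ hsq hlow hcnt (by omega : 1 ≤ k' + 1) hn hκh hκ1 hκ ht ht')
    have h2 := final_ineq hK0 hκ0 hκ1 hκ2 hu
    have h3 : K * (1 / t ^ 89) ≤ 2 / t := by
      have e : t ^ 89 = t * (K - 1) := by rw [← ht]; ring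
      rw [e, mul_one_div, div_le_div_iff₀ (mul_pos ht0 (by linarith)) ht0]
      nlinarith
    have h4 : 32 / t = 16 * (2 / t) := by ring
    linarith

theorem main (hp : S_pairs) (hd : S_dyck) (hZ : S_Z) (hcan : S_can) (hsq : S_sq) (hup : S_up)
    (hlow : S_low) (hcnt : S_cnt) (hlim : S_lim) : ∃ L : ℕ → ℝ,
    (∀ k, 1 ≤ k → Tendsto (fun n : ℕ => (cnt k n : ℝ) ^ ((1 : ℝ) / n)) atTop (𝓝 (L k))) ∧
      Tendsto (fun k : ℕ => 4 * (k : ℝ) - 2 - L k) atTop (𝓝 0) := by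
  have hch : ∀ k : ℕ, ∃ L : ℝ, 1 ≤ k →
      Tendsto (fun n : ℕ => (cnt k n : ℝ) ^ ((1 : ℝ) / n)) atTop (𝓝 L) := by
    intro k
    by_cases hk : 1 ≤ k
    · obtain ⟨L, hL⟩ := hlim k hk
      exact ⟨L, fun _ => hL⟩
    · exact ⟨0, fun h => absurd h hk⟩
  choose L hL using hch
  refine ⟨L, hL, ?_⟩
  -- the fourth root
  have ht : Tendsto (fun k : ℕ => ((k : ℝ) - 1) ^ ((1 : ℝ) / 88)) atTop atTop := by
    apply (tendsto_rpow_atTop (by norm_num : (0 : ℝ) < 1 / 88)).comp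
    exact tendsto_atTop_add_const_right _ (-1) tendsto_natCast_atTop_atTop
  have hub : Tendsto (fun k : ℕ => 1 / (k : ℝ) + 32 / (((k : ℝ) - 1) ^ ((1 : ℝ) / 88))) atTop
      (𝓝 0) := by
    have h1 := tendsto_one_div_atTop_nhds_zero_nat (𝕜 := ℝ)
    have h2 := ht.const_div_atTop (32 : ℝ)
    simpa using h1.add h2
  refine squeeze_zero' ?_ ?_ hub
  · filter_upwards [eventually_ge_atTop 2] with k hk
    have := (bounds hp hd hZ hcan hsq hup hlow hcnt hk (hL k (by omega))).1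
    linarith
  · filter_upwards [eventually_ge_atTop 2, ht.eventually_ge_atTop (6 ^ 5)] with k hk hk6
    have hk0 : (0 : ℝ) ≤ (k : ℝ) - 1 := by
      have : (2 : ℝ) ≤ k := by exact_mod_cast hk
      linarith
    have := (bounds hp hd hZ hcan hsq hup hlow hcnt hk (hL k (by omega))).2
      (((k : ℝ) - 1) ^ ((1 : ℝ) / 88)) (by
        rw [← Real.rpow_natCast, ← Real.rpow_mul hk0]
        norm_num) hk6
    linarith

end Pool.Agent.H159.SSq
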