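import Pool.Agent.H159.SSq.Core

/-!
# Components of two parses: the count (MP_e74ce2_co)
-/

set_option autoImplicit false

namespace Pool.Agent.H159.SSq

open Finset

/-- the classes of an equivalence relation which is closed under `a` and `b` -/
structure Cl (N : ℕ) (a b : ℕ → ℕ) (cls : ℕ → Finset ℕ) : Prop where
  self : ∀ v, v < N → v ∈ cls v
  eq : ∀ v, v < N → ∀ u ∈ cls v, u < N ∧ cls u = cls v
  ma : ∀ v, v < N → a v ∈ cls v
  mb : ∀ v, v < N → b v ∈ cls v
  sh : ∀ v, v < N → a v = b v → cls v = {v, a v}

variable {N : ℕ} {a b : ℕ → ℕ} {cls : ℕ → Finset ℕ}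

theorem Cl.swap (h : Cl N a b cls) : Cl N b a cls :=
  ⟨h.self, h.eq, h.mb, h.ma, fun v hv e => by rw [e]; exact h.sh v hv e.symm⟩

theorem Cl.eqa (h : Cl N a b cls) {v : ℕ} (hv : v < N) : cls (a v) = cls v :=
  (h.eq v hv _ (h.ma v hv)).2

theorem Cl.eqb (h : Cl N a b cls) {v : ℕ} (hv : v < N) : cls (b v) = cls v :=
  (h.eq v hv _ (h.mb v hv)).2

theorem Cl.T_sub (h : Cl N a b cls) (hb : Iv N b) {z : ℕ} (hz : z < N) :
    T a b z ⊆ cls z := by
  intro u hu
  rw [mem_T] at hu
  have hx := hb.lt z hz
  rcases hu with rfl | rfl | rfl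
  · exact h.self _ hz
  · exact h.mb _ hz
  · have := h.ma (b z) hx
    rwa [h.eqb hz] at this

theorem Cl.card_shared (h : Cl N a b cls) (ha : Iv N a) {v : ℕ} (hv : v < N) (e : a v = b v) :
    (cls v).card = 2 := by
  rw [h.sh v hv e]
  exact Finset.card_pair (ha.ne v hv).symm

theorem Cl.card_unshared (h : Cl N a b cls) (ha : Iv N a) (hb : Iv N b) {v : ℕ} (hv : v < N)
    (e : a v ≠ b v) : 4 ≤ (cls v).card := by
  have hbv := hb.lt v hv
  have h1 : ({v, a v, b v, a (b v)} : Finset ℕ) ⊆ cls v := by
    intro u hu
    simp only [Finset.mem_insert, Finset.mem_singleton] at hu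
    rcases hu with rfl | rfl | rfl | rfl
    · exact h.self _ hv
    · exact h.ma _ hv
    · exact h.mb _ hv
    · have := h.ma (b v) hbv
      rwa [h.eqb hv] at this
  have h2 : ({v, a v, b v, a (b v)} : Finset ℕ).card = 4 := by
    have g1 := ha.ne v hv
    have g2 := hb.ne v hv
    have g3 := ha.ne (b v) hbv
    have g4 : a (b v) ≠ v := by
      intro h
      have := ha.inv (b v) hbv
      rw [h] at this
      exact e this
    have g5 : a (b v) ≠ a v := fun h => g2 (ha.inj hbv hv h)
    rw [Finset.card_insert_of_notMem, Finset.card_insert_of_notMem,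
      Finset.card_insert_of_notMem, Finset.card_singleton]
    · simp only [Finset.mem_singleton]
      exact fun h => g3 h.symm
    · simp only [Finset.mem_insert, Finset.mem_singleton]
      rintro (h | h)
      · exact e h
      · exact g5 h.symm
    · simp only [Finset.mem_insert, Finset.mem_singleton]
      rintro (h | h | h)
      · exact g1 h.symm
      · exact g2 h.symm
      · exact g4 h.symm
  calc 4 = ({v, a v, b v, a (b v)} : Finset ℕ).card := h2.symm
    _ ≤ _ := Finset.card_le_card h1

theorem Fr.ne' {z : ℕ} (h : Fr N a b z) : a z ≠ b z := by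
  obtain ⟨h0, h1, h2, h3, h4⟩ := h
  omega

open Classical in
/-- the triple of a free element of either kind -/
noncomputable def TT (N : ℕ) (a b : ℕ → ℕ) (z : ℕ) : Finset ℕ :=
  if Fr N a b z then T a b z else T b a z

theorem not_both {z : ℕ} (h : Fr N a b z) (h' : Fr N b a z) : False := by
  obtain ⟨h0, h1, h2, h3, h4⟩ := h
  obtain ⟨k0, k1, k2, k3, k4⟩ := h'
  omega

/-- three free elements need nine positions -/
theorem three_mul (h : Cl N a b cls) (ha : Iv N a) (hb : Iv N b) (F : Finset ℕ)
    (hF : ∀ z ∈ F, Fr N a b z ∨ Fr N b a z) (κ : Finset ℕ) :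
    3 * (F.filter fun z => cls z = κ).card ≤ κ.card := by
  have hlt : ∀ z ∈ F, z < N := by
    intro z hz
    rcases hF z hz with h | h
    · exact h.1
    · exact h.1
  have h1 : ((F.filter fun z => cls z = κ).biUnion (TT N a b)).card =
      ∑ z ∈ F.filter (fun z => cls z = κ), (TT N a b z).card := by
    apply Finset.card_biUnion
    intro z hz z1 hz1 hne
    have hz' := hF z (Finset.mem_filter.1 hz).1
    have hz1' := hF z1 (Finset.mem_filter.1 hz1).1
    change Disjoint (TT N a b z) (TT N a b z1)
    unfold TT
    rcases hz' with g | g <;> rcases hz1' with g1 | g1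
    · rw [if_pos g, if_pos g1]
      exact s1_same ha hb g g1 hne
    · rw [if_pos g, if_neg (fun h => not_both h g1)]
      exact s1_diff ha hb g g1
    · rw [if_neg (fun h => not_both h g), if_pos g1]
      exact (s1_diff ha hb g1 g).symm
    · rw [if_neg (fun h => not_both h g), if_neg (fun h => not_both h g1)]
      exact s1_same hb ha g g1 hne
  have h2 : ∑ z ∈ F.filter (fun z => cls z = κ), (TT N a b z).card =
      3 * (F.filter fun z => cls z = κ).card := by
    rw [Finset.sum_congr rfl (g := fun _ => 3), Finset.sum_const, smul_eq_mul, mul_comm]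
    intro z hz
    unfold TT
    rcases hF z (Finset.mem_filter.1 hz).1 with g | g
    · rw [if_pos g, T_card g]
    · rw [if_neg (fun h => not_both h g), T_card g]
  rw [← h2, ← h1]
  apply Finset.card_le_card
  intro u hu
  rw [Finset.mem_biUnion] at hu
  obtain ⟨z, hz, hu⟩ := hu
  rw [Finset.mem_filter] at hz
  rw [← hz.2]
  unfold TT at hu
  split_ifs at hu
  · exact h.T_sub hb (hlt z hz.1) hu
  · exact h.swap.T_sub ha (hlt z hz.1) hu

/-- a class of size six has at most one free element -/
theorem six (h : Cl N a b cls) (ha : Iv N a) (hb : Iv N b) (F : Finset ℕ)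
    (hF : ∀ z ∈ F, Fr N a b z ∨ Fr N b a z) (κ : Finset ℕ) (h6 : κ.card = 6) :
    (F.filter fun z => cls z = κ).card ≤ 1 := by
  by_contra hc
  obtain ⟨z, hz, z1, hz1, hne⟩ := Finset.one_lt_card.1 (not_le.1 hc)
  rw [Finset.mem_filter] at hz hz1
  have hzN : z < N := by
    rcases hF z hz.1 with h | h
    · exact h.1
    · exact h.1
  have hz1N : z1 < N := by
    rcases hF z1 hz1.1 with h | h
    · exact h.1
    · exact h.1
  -- the union of the triples is everything
  have key : ∀ S S' : Finset ℕ, Disjoint S S' → S ⊆ κ → S' ⊆ κ → S.card = 3 → S'.card = 3 →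
      S ∪ S' = κ := by
    intro S S' hd h1 h2 h3 h4
    apply Finset.eq_of_subset_of_card_le (Finset.union_subset h1 h2)
    rw [Finset.card_union_of_disjoint hd]
    omega
  have maz : a z ∈ κ := by rw [← hz.2]; exact h.ma z hzN
  have mbz : b z ∈ κ := by rw [← hz.2]; exact h.mb z hzN
  have maz1 : a z1 ∈ κ := by rw [← hz1.2]; exact h.ma z1 hz1N
  have mbz1 : b z1 ∈ κ := by rw [← hz1.2]; exact h.mb z1 hz1N
  have sab : T a b z ⊆ κ := by rw [← hz.2]; exact h.T_sub hb hzN
  have sba : T b a z ⊆ κ := by rw [← hz.2]; exact h.swap.T_sub ha hzN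
  have sab1 : T a b z1 ⊆ κ := by rw [← hz1.2]; exact h.T_sub hb hz1N
  have sba1 : T b a z1 ⊆ κ := by rw [← hz1.2]; exact h.swap.T_sub ha hz1N
  rcases hF z hz.1 with g | g <;> rcases hF z1 hz1.1 with g1 | g1
  · have := key _ _ (s1_same ha hb g g1 hne) sab sab1 (T_card g) (T_card g1)
    rw [← this] at maz
    exact s2_same ha hb g g1 maz
  · have := key _ _ (s1_diff ha hb g g1) sab sba1 (T_card g) (T_card g1)
    apply s2_diff ha hb g g1
    · rw [this]; exact maz
    · rw [Finset.union_comm, this]; exact mbz1
  · have := key _ _ (s1_diff ha hb g1 g) sab1 sba (T_card g1) (T_card g)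
    apply s2_diff ha hb g1 g
    · rw [this]; exact maz1
    · rw [Finset.union_comm, this]; exact mbz
  · have := key _ _ (s1_same hb ha g g1 hne) sba sba1 (T_card g) (T_card g1)
    rw [← this] at mbz
    exact s2_same hb ha g g1 mbz

/-- a free element in a class of size four -/
theorem Cl.four (h : Cl N a b cls) (ha : Iv N a) (hb : Iv N b) {z : ℕ} (hz : Fr N a b z)
    (h4 : (cls z).card = 4) : cls z = Q a b z ∧ b (a (b z)) = a z := by
  have hzN := hz.1
  have hx := hb.lt z hzN
  have hx' := ha.lt _ hx
  apply SSq.four ha hb hz h4 (h.self z hzN) (h.mb z hzN)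
  · have := h.ma (b z) hx
    rwa [h.eqb hzN] at this
  · exact h.ma z hzN
  · have := h.mb _ hx'
    rwa [h.eqa hx, h.eqb hzN] at this

/-- the successor of a free element of a class of size four -/
theorem next_ab (h : Cl N a b cls) (ha : Iv N a) (hb : Iv N b) {z : ℕ} (hz : Fr N a b z)
    (h4 : (cls z).card = 4) (hy : z + 1 < N) (hya : z + 1 < a (z + 1)) :
    a (z + 1) ≠ b (z + 1) ∧ ∀ z1, (Fr N a b z1 ∨ Fr N b a z1) → (cls z1).card = 4 →
      cls (z + 1) ≠ cls z1 := by
  obtain ⟨g1, g2⟩ := h.four ha hb hz h4
  refine ⟨s3_unshared ha hb hz g2 hy hya, ?_⟩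
  intro z1 hz1 h41 he
  have hm : z + 1 ∈ cls z1 := by
    rw [← he]
    exact h.self _ hy
  rcases hz1 with hz1 | hz1
  · obtain ⟨k1, k2⟩ := h.four ha hb hz1 h41
    rw [k1] at hm
    exact s3_ab ha hb hz g2 hy hya hz1 k2 hm
  · obtain ⟨k1, k2⟩ := h.swap.four hb ha hz1 h41
    rw [k1] at hm
    exact s3_ba ha hb hz g2 hy hya hz1 k2 hm

theorem next (h : Cl N a b cls) (ha : Iv N a) (hb : Iv N b) {z : ℕ}
    (hz : Fr N a b z ∨ Fr N b a z)
    (h4 : (cls z).card = 4) (hNF : (Fr N a b z → z + 1 < N ∧ z + 1 < a (z + 1)) ∧
      (Fr N b a z → z + 1 < N ∧ z + 1 < b (z + 1))) :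
    z + 1 < N ∧ a (z + 1) ≠ b (z + 1) ∧ ∀ z1, (Fr N a b z1 ∨ Fr N b a z1) →
      (cls z1).card = 4 → cls (z + 1) ≠ cls z1 := by
  rcases hz with hz | hz
  · obtain ⟨g1, g2⟩ := hNF.1 hz
    exact ⟨g1, next_ab h ha hb hz h4 g1 g2⟩
  · obtain ⟨g1, g2⟩ := hNF.2 hz
    obtain ⟨g3, g4⟩ := next_ab h.swap hb ha hz h4 g1 g2
    exact ⟨g1, g3.symm, fun z1 hz1 => g4 z1 hz1.symm⟩

theorem core (h : Cl N a b cls) (ha : Iv N a) (hb : Iv N b) (F : Finset ℕ)
    (hF : ∀ z ∈ F, Fr N a b z ∨ Fr N b a z)
    (hNF : ∀ z ∈ F, (Fr N a b z → z + 1 < N ∧ z + 1 < a (z + 1)) ∧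
      (Fr N b a z → z + 1 < N ∧ z + 1 < b (z + 1)))
    (U : Finset ℕ) (hU : ∀ v ∈ U, v < N ∧ a v ≠ b v) :
    90 * F.card + 88 * ((range N).image cls).card ≤ 44 * N ∧
      U.card + 4 * ((range N).image cls).card ≤ 2 * N := by
  classical
  set K := (range N).image cls with hK
  have hFN : ∀ z ∈ F, z < N := by
    intro z hz
    rcases hF z hz with h | h
    · exact h.1
    · exact h.1
  -- the three sums
  have hN : N = ∑ κ ∈ K, κ.card := by
    have h1 := Finset.card_eq_sum_card_fiberwise (f := cls) (s := range N) (t := K)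
      (fun v hv => Finset.mem_image_of_mem cls hv)
    rw [Finset.card_range] at h1
    rw [h1]
    apply Finset.sum_congr rfl
    intro κ hκ
    obtain ⟨v, hv, rfl⟩ := Finset.mem_image.1 hκ
    rw [Finset.mem_range] at hv
    congr 1
    ext u
    rw [Finset.mem_filter, Finset.mem_range]
    constructor
    · rintro ⟨h1, h2⟩
      rw [← h2]
      exact h.self u h1
    · intro hu
      exact h.eq v hv u hu
  have hFs : F.card = ∑ κ ∈ K, (F.filter fun z => cls z = κ).card := by
    apply Finset.card_eq_sum_card_fiberwise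
    intro z hz
    exact Finset.mem_image_of_mem cls (Finset.mem_range.2 (hFN z hz))
  have hUs : U.card = ∑ κ ∈ K, (U.filter fun z => cls z = κ).card := by
    apply Finset.card_eq_sum_card_fiberwise
    intro z hz
    exact Finset.mem_image_of_mem cls (Finset.mem_range.2 (hU z hz).1)
  -- shared classes
  have hshF : ∀ v, v < N → a v = b v → (F.filter fun z => cls z = cls v) = ∅ := by
    intro v hv e
    rw [Finset.filter_eq_empty_iff]
    intro z hz he
    have hm : z ∈ cls v := by rw [← he]; exact h.self z (hFN z hz)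
    rw [h.sh v hv e] at hm
    have hab : a z = b z := by
      simp only [Finset.mem_insert, Finset.mem_singleton] at hm
      rcases hm with rfl | rfl
      · exact e
      · rw [ha.inv v hv, e, hb.inv v hv]
    rcases hF z hz with g | g
    · exact g.ne' hab
    · exact g.ne' hab.symm
  have hshU : ∀ v, v < N → a v = b v → (U.filter fun z => cls z = cls v) = ∅ := by
    intro v hv e
    rw [Finset.filter_eq_empty_iff]
    intro z hz he
    have hm : z ∈ cls v := by rw [← he]; exact h.self z (hU z hz).1
    rw [h.sh v hv e] at hm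
    have hab : a z = b z := by
      simp only [Finset.mem_insert, Finset.mem_singleton] at hm
      rcases hm with rfl | rfl
      · exact e
      · rw [ha.inv v hv, e, hb.inv v hv]
    exact (hU z hz).2 hab
  constructor
  · -- the main inequality
    set P : Finset ℕ → Prop := fun κ => κ.card = 4 ∧ 1 ≤ (F.filter fun z => cls z = κ).card
      with hP
    set R := (range N).filter fun v => a v ≠ b v ∧ ¬ P (cls v) with hR
    have hRs : R.card = ∑ κ ∈ K, (R.filter fun z => cls z = κ).card := by
      apply Finset.card_eq_sum_card_fiberwise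
      intro z hz
      exact Finset.mem_image_of_mem cls (Finset.mem_filter.1 hz).1
    have hinj : (K.filter P).card ≤ R.card := by
      have h1 : K.filter P ⊆ (F.filter fun z => P (cls z)).image cls := by
        intro κ hκ
        rw [Finset.mem_filter] at hκ
        obtain ⟨z, hz⟩ := Finset.card_pos.1 hκ.2.2
        rw [Finset.mem_filter] at hz
        rw [Finset.mem_image]
        refine ⟨z, ?_, hz.2⟩
        rw [Finset.mem_filter]
        refine ⟨hz.1, ?_⟩
        rw [hz.2]
        exact hκ.2
      have h2 : ((F.filter fun z => P (cls z)).image fun z => z + 1) ⊆ R := by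
        intro y hy
        rw [Finset.mem_image] at hy
        obtain ⟨z, hz, rfl⟩ := hy
        rw [Finset.mem_filter] at hz
        obtain ⟨g1, g2, g3⟩ := next h ha hb (hF z hz.1) hz.2.1 (hNF z hz.1)
        rw [hR, Finset.mem_filter, Finset.mem_range]
        refine ⟨g1, g2, ?_⟩
        rintro ⟨k1, k2⟩
        obtain ⟨z1, hz1⟩ := Finset.card_pos.1 k2
        rw [Finset.mem_filter] at hz1
        apply g3 z1 (hF z1 hz1.1)
        · rw [hz1.2]; exact k1
        · exact hz1.2.symm
      calc (K.filter P).card ≤ ((F.filter fun z => P (cls z)).image cls).card :=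
            Finset.card_le_card h1
        _ ≤ (F.filter fun z => P (cls z)).card := Finset.card_image_le
        _ = ((F.filter fun z => P (cls z)).image fun z => z + 1).card := by
            rw [Finset.card_image_of_injective]
            intro x y hxy
            simpa using hxy
        _ ≤ R.card := Finset.card_le_card h2
    have hPs : (K.filter P).card = ∑ κ ∈ K, (if P κ then 1 else 0) := by
      rw [Finset.card_filter]
    have hmain : ∑ κ ∈ K, (90 * (F.filter fun z => cls z = κ).card + 88 +
        2 * (R.filter fun z => cls z = κ).card) ≤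
        ∑ κ ∈ K, (44 * κ.card + 2 * (if P κ then 1 else 0)) := by
      apply Finset.sum_le_sum
      intro κ hκ
      obtain ⟨v, hv, rfl⟩ := Finset.mem_image.1 hκ
      rw [Finset.mem_range] at hv
      by_cases e : a v = b v
      · have h1 : (R.filter fun z => cls z = cls v) = ∅ := by
          rw [Finset.filter_eq_empty_iff]
          intro z hz he
          rw [hR, Finset.mem_filter, Finset.mem_range] at hz
          have hm : z ∈ cls v := by rw [← he]; exact h.self z hz.1
          rw [h.sh v hv e] at hm
          have hab : a z = b z := by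
            simp only [Finset.mem_insert, Finset.mem_singleton] at hm
            rcases hm with rfl | rfl
            · exact e
            · rw [ha.inv v hv, e, hb.inv v hv]
          exact hz.2.1 hab
        have h2 : (R.filter fun z => cls z = cls v).card = 0 := by rw [h1]; rfl
        have h3 : (F.filter fun z => cls z = cls v).card = 0 := by rw [hshF v hv e]; rfl
        have h4 := h.card_shared ha hv e
        omega
      · by_cases hPv : P (cls v)
        · have h1 : (R.filter fun z => cls z = cls v) = ∅ := by
            rw [Finset.filter_eq_empty_iff]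
            intro z hz he
            rw [hR, Finset.mem_filter, Finset.mem_range] at hz
            apply hz.2.2
            rw [he]
            exact hPv
          have h3 := three_mul h ha hb F hF (cls v)
          rw [h1, if_pos hPv, Finset.card_empty]
          have h4 := hPv.1
          omega
        · have h1 : (R.filter fun z => cls z = cls v).card ≤ (cls v).card := by
            apply Finset.card_le_card
            intro z hz
            rw [Finset.mem_filter] at hz
            rw [← hz.2]
            rw [hR, Finset.mem_filter, Finset.mem_range] at hz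
            exact h.self z hz.1.1
          have h3 := three_mul h ha hb F hF (cls v)
          have h4 := h.card_unshared ha hb hv e
          have h5 := six h ha hb F hF (cls v)
          have h6 : ¬ ((cls v).card = 4 ∧ 1 ≤ (F.filter fun z => cls z = cls v).card) := hPv
          rw [if_neg hPv]
          omega
    rw [Finset.sum_add_distrib, Finset.sum_add_distrib, Finset.sum_add_distrib,
      ← Finset.mul_sum, ← Finset.mul_sum, ← Finset.mul_sum, ← Finset.mul_sum, ← hN, ← hFs,
      ← hRs, ← hPs, Finset.sum_const, smul_eq_mul] at hmain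
    omega
  · have hmain : ∑ κ ∈ K, ((U.filter fun z => cls z = κ).card + 4) ≤
        ∑ κ ∈ K, 2 * κ.card := by
      apply Finset.sum_le_sum
      intro κ hκ
      obtain ⟨v, hv, rfl⟩ := Finset.mem_image.1 hκ
      rw [Finset.mem_range] at hv
      by_cases e : a v = b v
      · rw [hshU v hv e, h.card_shared ha hv e]
        simp
      · have h1 : (U.filter fun z => cls z = cls v).card ≤ (cls v).card := by
          apply Finset.card_le_card
          intro z hz
          rw [Finset.mem_filter] at hz
          rw [← hz.2]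
          exact h.self z (hU z hz.1).1
        have h4 := h.card_unshared ha hb hv e
        omega
    rw [Finset.sum_add_distrib, ← Finset.mul_sum, ← hN, ← hUs, Finset.sum_const,
      smul_eq_mul] at hmain
    omega

end Pool.Agent.H159.SSq
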