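import Pool.Agent.H159.SSq.Stm
import Pool.Agent.H159.SSq.Count

/-!
# Components of two parses: from paths to involutions (MP_e74ce2_co)
-/

set_option autoImplicit false

namespace Pool.Agent.H159.SSq

open Finset

theorem mem_FR {n : ℕ} {A B : Finset ℕ} {z : ℕ} :
    z ∈ FR n A B ↔ z < 2 * n ∧ 1 ≤ z ∧ Ub A B z ∧ ¬ (z ∈ A ↔ z ∈ B) := by
  simp only [FR, Finset.mem_filter, Finset.mem_range]

theorem mem_SP {n : ℕ} {A B : Finset ℕ} {z : ℕ} :
    z ∈ SP n A B ↔ z < 2 * n ∧ 1 ≤ z ∧ ¬ Ub A B z ∧ ¬ (z ∈ A ∧ z ∈ B) := by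
  simp only [SP, Finset.mem_filter, Finset.mem_range]

theorem mem_Mn {n : ℕ} {A B : Finset ℕ} {z : ℕ} :
    z ∈ Mn n A B ↔ z < 2 * n ∧ ∀ u, Conn n A B u z → z ≤ u := by
  simp only [Mn, Finset.mem_filter, Finset.mem_range]

theorem mem_PU {n : ℕ} {A B : Finset ℕ} {z : ℕ} :
    z ∈ PU n A B ↔ z < 2 * n ∧ z + 1 < 2 * n ∧ z ∈ A ∧ z ∈ B ∧ z + 1 ∉ A ∧ z + 1 ∉ B ∧
      Ub A B (z + 1) := by
  simp only [PU, Finset.mem_filter, Finset.mem_range]

theorem mem_PK {n : ℕ} {A : Finset ℕ} {z : ℕ} :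
    z ∈ PK n A ↔ z < 2 * n ∧ z ∈ A ∧ z + 1 ∉ A ∧ po A z < pu A z := by
  unfold PK
  rw [Finset.mem_filter, Finset.mem_range]

theorem mem_Cw {k n : ℕ} [NeZero k] {A : Finset ℕ} {w : Fin (2 * n) → ZMod k} :
    w ∈ Cw k n A ↔ Can A w := by
  simp only [Cw, Finset.mem_filter, Finset.mem_univ, true_and]

theorem M_lt {n : ℕ} {A : Finset ℕ} (h : Dy n A) {s t : ℕ} (hM : M A s t) (ht : t < 2 * n) :
    s < t := by
  obtain ⟨h1, h2, h3⟩ := hM
  by_contra hc
  rcases Nat.lt_or_ge t s with h4 | h4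
  · have h5 := po_succ A t
    rw [if_neg h2] at h5
    have h6 := h.2.2 (t + 1) (by omega)
    have h7 := pu_mono A (show t + 1 ≤ s by omega)
    omega
  · have : s = t := by omega
    subst this
    exact h2 h1

theorem M_push {n : ℕ} {A : Finset ℕ} (h : Dy n A) {s : ℕ} (hs : s < 2 * n) (hA : s ∈ A) :
    ∃ t < 2 * n, M A s t := by
  have h1 := pu_lt A hA hs
  have h2 := pu_add_po A (2 * n)
  have h3 := h.2.1
  obtain ⟨t, ht, h4, h5⟩ := exists_pop A (t := 2 * n) (i := pu A s) (by omega)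
  exact ⟨t, ht, hA, h4, h5.symm⟩

theorem M_pop {n : ℕ} {A : Finset ℕ} (h : Dy n A) {t : ℕ} (ht : t < 2 * n) (hA : t ∉ A) :
    ∃ s < 2 * n, M A s t := by
  have h1 := po_lt A hA ht
  have h2 := pu_add_po A (2 * n)
  have h3 := h.2.1
  obtain ⟨s, hs, h4, h5⟩ := exists_push A (t := 2 * n) (i := po A t) (by omega)
  exact ⟨s, hs, h4, hA, h5⟩

theorem M_right {A : Finset ℕ} {s t t' : ℕ} (h : M A s t) (h' : M A s t') : t = t' := by
  obtain ⟨h1, h2, h3⟩ := h
  obtain ⟨k1, k2, k3⟩ := h'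
  rcases Nat.lt_trichotomy t t' with h4 | h4 | h4
  · have := po_lt A h2 h4
    omega
  · exact h4
  · have := po_lt A k2 h4
    omega

theorem M_left {A : Finset ℕ} {s s' t : ℕ} (h : M A s t) (h' : M A s' t) : s = s' := by
  obtain ⟨h1, h2, h3⟩ := h
  obtain ⟨k1, k2, k3⟩ := h'
  rcases Nat.lt_trichotomy s s' with h4 | h4 | h4
  · have := pu_lt A h1 h4
    omega
  · exact h4
  · have := pu_lt A k1 h4
    omega

/-- the matched positions -/
def MM (A : Finset ℕ) (s t : ℕ) : Prop := M A s t ∨ M A t s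

theorem MM_unique {A : Finset ℕ} {s t t' : ℕ} (h : MM A s t) (h' : MM A s t') : t = t' := by
  rcases h with h | h <;> rcases h' with h' | h'
  · exact M_right h h'
  · exact absurd h.1 h'.2.1
  · exact absurd h'.1 h.2.1
  · exact M_left h h'

theorem MM_symm {A : Finset ℕ} {s t : ℕ} (h : MM A s t) : MM A t s := h.symm

open Classical in
/-- the partner of a position -/
noncomputable def mt (n : ℕ) (A : Finset ℕ) (v : ℕ) : ℕ :=
  if h : ∃ t, t < 2 * n ∧ MM A v t then Classical.choose h else v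

theorem mt_spec {n : ℕ} {A : Finset ℕ} (h : Dy n A) {v : ℕ} (hv : v < 2 * n) :
    mt n A v < 2 * n ∧ MM A v (mt n A v) := by
  have h1 : ∃ t, t < 2 * n ∧ MM A v t := by
    by_cases hA : v ∈ A
    · obtain ⟨t, ht, h2⟩ := M_push h hv hA
      exact ⟨t, ht, Or.inl h2⟩
    · obtain ⟨t, ht, h2⟩ := M_pop h hv hA
      exact ⟨t, ht, Or.inr h2⟩
  unfold mt
  rw [dif_pos h1]
  exact Classical.choose_spec h1

theorem mt_eq {n : ℕ} {A : Finset ℕ} (h : Dy n A) {v t : ℕ} (hv : v < 2 * n) (hM : MM A v t) :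
    mt n A v = t :=
  MM_unique (mt_spec h hv).2 hM

theorem mt_push {n : ℕ} {A : Finset ℕ} (h : Dy n A) {v : ℕ} (hv : v < 2 * n) (hA : v ∈ A) :
    M A v (mt n A v) ∧ v < mt n A v := by
  obtain ⟨h1, h2⟩ := mt_spec h hv
  rcases h2 with h2 | h2
  · exact ⟨h2, M_lt h h2 h1⟩
  · exact absurd hA h2.2.1

theorem mt_pop {n : ℕ} {A : Finset ℕ} (h : Dy n A) {v : ℕ} (hv : v < 2 * n) (hA : v ∉ A) :
    M A (mt n A v) v ∧ mt n A v < v := by
  obtain ⟨h1, h2⟩ := mt_spec h hv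
  rcases h2 with h2 | h2
  · exact absurd h2.1 hA
  · exact ⟨h2, M_lt h h2 hv⟩

theorem mt_opener {n : ℕ} {A : Finset ℕ} (h : Dy n A) {v : ℕ} (hv : v < 2 * n)
    (ho : v < mt n A v) : v ∈ A := by
  by_contra hA
  have := (mt_pop h hv hA).2
  omega

theorem mt_Iv {n : ℕ} {A : Finset ℕ} (h : Dy n A) : Iv (2 * n) (mt n A) := by
  refine ⟨fun v hv => (mt_spec h hv).1, fun v hv => ?_, fun v hv => ?_, ?_⟩
  · obtain ⟨h1, h2⟩ := mt_spec h hv
    exact mt_eq h h1 (MM_symm h2)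
  · by_cases hA : v ∈ A
    · have := (mt_push h hv hA).2
      omega
    · have := (mt_pop h hv hA).2
      omega
  · intro s t hst ht hs' ht'
    have hsN : s < 2 * n := by omega
    have hsA := mt_opener h hsN hs'
    have htA := mt_opener h ht ht'
    have h1 := (mt_push h hsN hsA).1
    have h2 := (mt_push h ht htA).1
    have h3 := pu_lt A hsA hst
    by_contra hc
    have h4 := po_mono A (not_lt.1 hc)
    have h5 := h1.2.2
    have h6 := h2.2.2
    omega

theorem FR_half {n : ℕ} {A B : Finset ℕ} (hA : Dy n A) (hB : Dy n B) {z : ℕ} (hz : z < 2 * n)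
    (hU : Ub A B z) (h1 : z ∈ A) (h2 : z ∉ B) : Fr (2 * n) (mt n A) (mt n B) z := by
  obtain ⟨x, hx, hxA, hxB, h3, h4⟩ := hU
  have hM : M B x z := ⟨hxB, h2, h4⟩
  have hb : mt n B z = x := mt_eq hB hz (Or.inr hM)
  have hxN : x < 2 * n := by omega
  refine ⟨hz, by omega, (mt_push hA hz h1).2, ?_, ?_⟩
  · rw [hb]
    obtain ⟨⟨_, h5, h6⟩, h7⟩ := mt_push hA hxN hxA
    by_contra hc
    rcases Nat.lt_or_ge (mt n A x) z with h8 | h8
    · have := po_lt A h5 h8
      omega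
    · have : mt n A x = z := by omega
      rw [this] at h5
      exact h5 h1
  · rw [hb]
    intro s hs hs'
    have hsN : s < 2 * n := by omega
    have hsA := mt_opener hA hsN hs'
    obtain ⟨⟨_, h5, h6⟩, h7⟩ := mt_push hA hsN hsA
    have h8 := pu_lt A hsA hs
    by_contra hc
    have := po_mono A (not_lt.1 hc)
    omega

theorem Ub.swap {A B : Finset ℕ} {z : ℕ} (h : Ub A B z) : Ub B A z := by
  obtain ⟨x, hx, h1, h2, h3, h4⟩ := h
  exact ⟨x, hx, h2, h1, h4, h3⟩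

theorem FR_Fr {n : ℕ} {A B : Finset ℕ} (hA : Dy n A) (hB : Dy n B) {z : ℕ}
    (hz : z ∈ FR n A B) :
    Fr (2 * n) (mt n A) (mt n B) z ∨ Fr (2 * n) (mt n B) (mt n A) z := by
  rw [mem_FR] at hz
  obtain ⟨h0, h1, h2, h3⟩ := hz
  by_cases hzA : z ∈ A
  · left
    apply FR_half hA hB h0 h2 hzA
    intro h
    exact h3 ⟨fun _ => h, fun _ => hzA⟩
  · right
    have hzB : z ∈ B := by
      by_contra h
      exact h3 ⟨fun h' => absurd h' hzA, fun h' => absurd h' h⟩
    exact FR_half hB hA h0 h2.swap hzB hzA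

theorem SP_ne {n : ℕ} {A B : Finset ℕ} (hA : Dy n A) (hB : Dy n B) {z : ℕ}
    (hz : z ∈ SP n A B) : z < 2 * n ∧ mt n A z ≠ mt n B z := by
  rw [mem_SP] at hz
  obtain ⟨h0, h1, h2, h3⟩ := hz
  refine ⟨h0, fun he => ?_⟩
  by_cases hzA : z ∈ A
  · have hzB : z ∉ B := fun h => h3 ⟨hzA, h⟩
    have h4 := (mt_push hA h0 hzA).2
    have h5 := (mt_pop hB h0 hzB).2
    omega
  · obtain ⟨⟨h4, _, h6⟩, h7⟩ := mt_pop hA h0 hzA
    by_cases hzB : z ∈ B
    · have h5 := (mt_push hB h0 hzB).2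
      omega
    · obtain ⟨⟨k4, _, k6⟩, k7⟩ := mt_pop hB h0 hzB
      rw [← he] at k4 k6
      exact h2 ⟨mt n A z, h7, h4, k4, h6, k6⟩

theorem Conn.refl' (n : ℕ) (A B : Finset ℕ) (v : ℕ) : Conn n A B v v :=
  Relation.EqvGen.refl v

theorem Conn.symm' {n : ℕ} {A B : Finset ℕ} {u v : ℕ} (h : Conn n A B u v) : Conn n A B v u :=
  Relation.EqvGen.symm _ _ h

theorem Conn.trans' {n : ℕ} {A B : Finset ℕ} {u v w : ℕ} (h : Conn n A B u v)
    (h' : Conn n A B v w) : Conn n A B u w :=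
  Relation.EqvGen.trans _ _ _ h h'

theorem Conn.closed {n : ℕ} {A B : Finset ℕ} {S : ℕ → Prop}
    (hS : ∀ s t, s < 2 * n → t < 2 * n → (M A s t ∨ M B s t) → (S s ↔ S t)) {u v : ℕ}
    (h : Conn n A B u v) : S u ↔ S v := by
  induction h with
  | rel x y h => exact hS x y h.1 h.2.1 h.2.2
  | refl x => exact Iff.rfl
  | symm x y _ ih => exact ih.symm
  | trans x y z _ _ ih1 ih2 => exact ih1.trans ih2

theorem Conn.lt_iff {n : ℕ} {A B : Finset ℕ} {u v : ℕ} (h : Conn n A B u v) :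
    u < 2 * n ↔ v < 2 * n :=
  Conn.closed (S := fun x => x < 2 * n) (fun s t hs ht _ => by simp [hs, ht]) h

open Classical in
/-- the class of a position -/
noncomputable def cl (n : ℕ) (A B : Finset ℕ) (v : ℕ) : Finset ℕ :=
  (range (2 * n)).filter fun u => Conn n A B u v

theorem mem_cl {n : ℕ} {A B : Finset ℕ} {u v : ℕ} :
    u ∈ cl n A B v ↔ u < 2 * n ∧ Conn n A B u v := by
  simp only [cl, Finset.mem_filter, Finset.mem_range]

theorem Conn_mtA {n : ℕ} {A B : Finset ℕ} (hA : Dy n A) {v : ℕ} (hv : v < 2 * n) :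
    Conn n A B (mt n A v) v := by
  obtain ⟨h1, h2⟩ := mt_spec hA hv
  rcases h2 with h2 | h2
  · exact Relation.EqvGen.symm _ _ (Relation.EqvGen.rel _ _ ⟨hv, h1, Or.inl h2⟩)
  · exact Relation.EqvGen.rel _ _ ⟨h1, hv, Or.inl h2⟩

theorem Conn_mtB {n : ℕ} {A B : Finset ℕ} (hB : Dy n B) {v : ℕ} (hv : v < 2 * n) :
    Conn n A B (mt n B v) v := by
  obtain ⟨h1, h2⟩ := mt_spec hB hv
  rcases h2 with h2 | h2
  · exact Relation.EqvGen.symm _ _ (Relation.EqvGen.rel _ _ ⟨hv, h1, Or.inr h2⟩)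
  · exact Relation.EqvGen.rel _ _ ⟨h1, hv, Or.inr h2⟩

theorem cl_Cl {n : ℕ} {A B : Finset ℕ} (hA : Dy n A) (hB : Dy n B) :
    Cl (2 * n) (mt n A) (mt n B) (cl n A B) := by
  refine ⟨fun v hv => mem_cl.2 ⟨hv, Conn.refl' _ _ _ _⟩, ?_, ?_, ?_, ?_⟩
  · intro v hv u hu
    rw [mem_cl] at hu
    refine ⟨hu.1, ?_⟩
    ext w
    rw [mem_cl, mem_cl]
    exact ⟨fun h => ⟨h.1, h.2.trans' hu.2⟩, fun h => ⟨h.1, h.2.trans' hu.2.symm'⟩⟩
  · intro v hv
    exact mem_cl.2 ⟨(mt_spec hA hv).1, Conn_mtA hA hv⟩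
  · intro v hv
    exact mem_cl.2 ⟨(mt_spec hB hv).1, Conn_mtB hB hv⟩
  · intro v hv e
    have hav : mt n A v < 2 * n := (mt_spec hA hv).1
    have iA := (mt_Iv hA).inv v hv
    have iB := (mt_Iv hB).inv v hv
    ext w
    rw [mem_cl]
    simp only [Finset.mem_insert, Finset.mem_singleton]
    constructor
    · rintro ⟨hw, hc⟩
      have h1 := Conn.closed (S := fun x => x = v ∨ x = mt n A v) ?_ hc
      · exact h1.2 (Or.inl rfl)
      · have key : ∀ s t, s < 2 * n → t < 2 * n → (MM A s t ∨ MM B s t) →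
            (s = v ∨ s = mt n A v) → (t = v ∨ t = mt n A v) := by
          intro s t hs ht hM h1
          rcases hM with hM | hM
          · have h2 := mt_eq hA hs hM
            rcases h1 with h1 | h1
            · rw [h1] at h2; right; exact h2.symm
            · rw [h1, iA] at h2; left; exact h2.symm
          · have h2 := mt_eq hB hs hM
            rcases h1 with h1 | h1
            · rw [h1] at h2; right; rw [e]; exact h2.symm
            · rw [h1, e, iB] at h2; left; exact h2.symm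
        intro s t hs ht hM
        constructor
        · apply key s t hs ht
          rcases hM with hM | hM
          · exact Or.inl (Or.inl hM)
          · exact Or.inr (Or.inl hM)
        · apply key t s ht hs
          rcases hM with hM | hM
          · exact Or.inl (Or.inr hM)
          · exact Or.inr (Or.inr hM)
    · rintro (rfl | rfl)
      · exact ⟨hv, Conn.refl' _ _ _ _⟩
      · exact ⟨hav, Conn_mtA hA hv⟩

theorem Mn_card_le {n : ℕ} {A B : Finset ℕ} :
    (Mn n A B).card ≤ ((range (2 * n)).image (cl n A B)).card := by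
  apply Finset.card_le_card_of_injOn (cl n A B)
  · intro v hv
    have hv' : v ∈ Mn n A B := hv
    rw [mem_Mn] at hv'
    exact Finset.mem_coe.2 (Finset.mem_image_of_mem _ (Finset.mem_range.2 hv'.1))
  · intro v hv v' hv' he
    have h1 : v ∈ Mn n A B := hv
    have h2 : v' ∈ Mn n A B := hv'
    rw [mem_Mn] at h1 h2
    have h3 : v ∈ cl n A B v' := by
      have : v ∈ cl n A B v := mem_cl.2 ⟨h1.1, Conn.refl' _ _ _ _⟩
      rwa [he] at this
    rw [mem_cl] at h3
    have h4 := h2.2 v h3.2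
    have h5 := h1.2 v' h3.2.symm'
    omega

theorem comb : S_comb := by
  intro n A B hA hB hNF
  have dA := hA.dy
  have dB := hB.dy
  have hdisj : Disjoint (FR n A B) (SP n A B) := by
    rw [Finset.disjoint_left]
    intro z h1 h2
    rw [mem_FR] at h1
    rw [mem_SP] at h2
    exact h2.2.2.1 h1.2.2.1
  have h := core (cl_Cl dA dB) (mt_Iv dA) (mt_Iv dB) (FR n A B) (fun z hz => FR_Fr dA dB hz)
    ?_ (FR n A B ∪ SP n A B) ?_
  · obtain ⟨h1, h2⟩ := h
    have h3 := Mn_card_le (n := n) (A := A) (B := B)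
    rw [Finset.card_union_of_disjoint hdisj] at h2
    constructor
    · omega
    · omega
  · intro z hz
    have hzN : z < 2 * n := by
      rw [mem_FR] at hz
      exact hz.1
    constructor
    · intro hf
      have hzA := mt_opener dA hzN hf.2.2.1
      have h1 := (hNF z hz).1 hzA
      have h2 : z + 1 < 2 * n := Finset.mem_range.1 (dA.1 h1)
      exact ⟨h2, (mt_push dA h2 h1).2⟩
    · intro hf
      have hzB := mt_opener dB hzN hf.2.2.1
      have h1 := (hNF z hz).2 hzB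
      have h2 : z + 1 < 2 * n := Finset.mem_range.1 (dB.1 h1)
      exact ⟨h2, (mt_push dB h2 h1).2⟩
  · intro v hv
    rw [Finset.mem_union] at hv
    rcases hv with hv | hv
    · rcases FR_Fr dA dB hv with h | h
      · exact ⟨h.1, h.ne'⟩
      · exact ⟨h.1, h.ne'.symm⟩
    · exact SP_ne dA dB hv

theorem noflip : S_noflip := by
  have key : ∀ (k n : ℕ) [NeZero k] (w : Fin (2 * n) → ZMod k) (A B : Finset ℕ),
      Prim n A → Prim n B → w ∈ Cw k n A → w ∈ Cw k n B → ∀ z ∈ FR n A B, z ∈ A → z + 1 ∈ A := by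
    intro k n _ w A B hA hB hwA hwB z hz hzA
    rw [mem_Cw] at hwA hwB
    rw [mem_FR] at hz
    obtain ⟨h0, h1, ⟨x, hx, hxA, hxB, h2, h3⟩, h4⟩ := hz
    have hzB : z ∉ B := fun h => h4 ⟨fun _ => h, fun _ => hzA⟩
    by_contra hc
    have h5 : po A z < pu A z := hA.2.2 z h1 h0
    have h6 : z ∈ PK n A := by
      rw [mem_PK]
      exact ⟨h0, hzA, hc, h5⟩
    -- `z + 1 < 2 n`
    have h7 : z + 1 < 2 * n := by
      by_contra h8
      have h9 : z + 1 = 2 * n := by omega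
      have g1 := pu_succ A z
      have g2 := po_succ A z
      rw [if_pos hzA] at g1 g2
      have g3 := hA.2.1
      have g4 := pu_add_po A (2 * n)
      rw [h9] at g1 g2
      omega
    apply hwA.2 z h6 h7
    -- `B` pops `x` at `z`, `A` pops `x` at `z + 1`
    have e1 : ext w x = ext w z := hwB.1 x z (by omega) h0 ⟨hxB, hzB, h3⟩
    have e2 : ext w x = ext w (z + 1) := by
      apply hwA.1 x (z + 1) (by omega) h7
      refine ⟨hxA, hc, ?_⟩
      rw [po_succ, if_pos hzA, h2]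
      rfl
    rw [← e1, e2]
  intro k n _ w A B hA hB hwA hwB z hz
  refine ⟨key k n w A B hA hB hwA hwB z hz, ?_⟩
  apply key k n w B A hB hA hwB hwA z
  rw [mem_FR] at hz ⊢
  exact ⟨hz.1, hz.2.1, hz.2.2.1.swap, fun h => hz.2.2.2 h.symm⟩

end Pool.Agent.H159.SSq
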