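import Mathlib

/-!
# Components of two parses: the abstract core (MP_e74ce2_co)

Two fixed point free involutions `a`, `b` of `{0, …, N - 1}` which are increasing on their openers.
-/

set_option autoImplicit false

namespace Pool.Agent.H159.SSq

open Finset

/-- a fixed point free involution of `{0, …, N - 1}`, increasing on the openers -/
structure Iv (N : ℕ) (a : ℕ → ℕ) : Prop where
  lt : ∀ v, v < N → a v < N
  inv : ∀ v, v < N → a (a v) = v
  ne : ∀ v, v < N → a v ≠ v
  mo : ∀ s t, s < t → t < N → s < a s → t < a t → a s < a t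

theorem Iv.inj {N : ℕ} {a : ℕ → ℕ} (h : Iv N a) {s t : ℕ} (hs : s < N) (ht : t < N)
    (e : a s = a t) : s = t := by
  rw [← h.inv s hs, e, h.inv t ht]

theorem Iv.mc {N : ℕ} {a : ℕ → ℕ} (h : Iv N a) {s t : ℕ} (hst : s < t) (ht : t < N)
    (h1 : a s < s) (h2 : a t < t) : a s < a t := by
  have hs : s < N := lt_trans hst ht
  by_contra hc
  rcases Nat.lt_or_ge (a t) (a s) with h3 | h3
  · have := h.mo (a t) (a s) h3 (h.lt s hs) (by rw [h.inv t ht]; exact h2)
      (by rw [h.inv s hs]; exact h1)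
    rw [h.inv t ht, h.inv s hs] at this
    omega
  · have h4 : a s = a t := by omega
    have := h.inj hs ht h4
    omega

/-- free elements: `b` pops the common front `b z`, `a` pushes -/
def Fr (N : ℕ) (a b : ℕ → ℕ) (z : ℕ) : Prop :=
  z < N ∧ b z < z ∧ z < a z ∧ z < a (b z) ∧ ∀ s < b z, s < a s → a s < z

/-- the triple of a free element -/
def T (a b : ℕ → ℕ) (z : ℕ) : Finset ℕ := {z, b z, a (b z)}

section

variable {N : ℕ} {a b : ℕ → ℕ}

theorem mem_T {z u : ℕ} : u ∈ T a b z ↔ u = z ∨ u = b z ∨ u = a (b z) := by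
  simp [T]

theorem T_card {z : ℕ} (hz : Fr N a b z) : (T a b z).card = 3 := by
  obtain ⟨h0, h1, h2, h3, h4⟩ := hz
  unfold T
  rw [Finset.card_eq_three]
  exact ⟨z, b z, a (b z), by omega, by omega, by omega, rfl⟩

theorem s1_same (ha : Iv N a) (hb : Iv N b) {z z1 : ℕ} (hz : Fr N a b z) (hz1 : Fr N a b z1)
    (hne : z ≠ z1) : Disjoint (T a b z) (T a b z1) := by
  obtain ⟨h0, h1, h2, h3, h4⟩ := hz
  obtain ⟨k0, k1, k2, k3, k4⟩ := hz1
  have hx : b z < N := hb.lt z h0
  have kx : b z1 < N := hb.lt z1 k0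
  have e1 := hb.inv z h0
  have e2 := hb.inv z1 k0
  have e3 := ha.inv (b z) hx
  have e4 := ha.inv (b z1) kx
  rw [Finset.disjoint_left]
  intro u hu hu1
  rw [mem_T] at hu hu1
  rcases hu with rfl | rfl | rfl <;> rcases hu1 with h | h | h
  · exact hne h
  · rw [← h] at e2; omega
  · rw [← h] at e4; omega
  · rw [h] at e1; omega
  · exact hne (hb.inj h0 k0 h)
  · rw [← h] at e4; omega
  · rw [h] at e3; omega
  · rw [h] at e3; omega
  · exact hne (hb.inj h0 k0 (ha.inj hx kx h))

theorem s1_diff (ha : Iv N a) (hb : Iv N b) {z z1 : ℕ} (hz : Fr N a b z) (hz1 : Fr N b a z1) :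
    Disjoint (T a b z) (T b a z1) := by
  obtain ⟨h0, h1, h2, h3, h4⟩ := hz
  obtain ⟨k0, k1, k2, k3, k4⟩ := hz1
  have hx : b z < N := hb.lt z h0
  have kx : a z1 < N := ha.lt z1 k0
  have e1 := hb.inv z h0
  have e2 := ha.inv z1 k0
  have e3 := ha.inv (b z) hx
  have e4 := hb.inv (a z1) kx
  have first : b z ≠ a z1 := by
    intro h
    rw [h, e2] at h3
    rw [← h, e1] at k3
    omega
  have second : z ≠ z1 := by
    intro h
    subst h
    omega
  have third : z ≠ a z1 := by
    intro h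
    rw [h] at h1
    omega
  have fourth : b z ≠ z1 := by
    intro h
    rw [h] at h3
    omega
  rw [Finset.disjoint_left]
  intro u hu hu1
  rw [mem_T] at hu hu1
  rcases hu with rfl | rfl | rfl <;> rcases hu1 with h | h | h
  · exact second h
  · exact third h
  · rw [← h] at e4; exact first e4
  · exact fourth h
  · exact first h
  · exact third (hb.inj h0 kx h)
  · rw [h] at e3; exact first e3.symm
  · exact fourth (ha.inj hx k0 h)
  · rcases Nat.lt_trichotomy z z1 with hlt | he | hlt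
    · rcases Nat.lt_trichotomy (b z) (a z1) with h5 | h5 | h5
      · have := ha.mo (b z) (a z1) h5 kx (by omega) (by omega)
        rw [e2, h] at this
        omega
      · exact first h5
      · have := h4 (a z1) h5 (by omega)
        rw [e2] at this
        omega
    · exact second he
    · rcases Nat.lt_trichotomy (a z1) (b z) with h5 | h5 | h5
      · have := hb.mo (a z1) (b z) h5 hx (by omega) (by omega)
        rw [e1, ← h] at this
        omega
      · exact first h5.symm
      · have := k4 (b z) h5 (by omega)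
        rw [e1] at this
        omega

theorem s2_same (ha : Iv N a) (hb : Iv N b) {z z1 : ℕ} (hz : Fr N a b z) (hz1 : Fr N a b z1)
    (hm : a z ∈ T a b z ∪ T a b z1) : False := by
  obtain ⟨h0, h1, h2, h3, h4⟩ := hz
  obtain ⟨k0, k1, k2, k3, k4⟩ := hz1
  have hx : b z < N := hb.lt z h0
  have kx : b z1 < N := hb.lt z1 k0
  have e0 := ha.inv z h0
  have e1 := hb.inv z h0
  have e2 := hb.inv z1 k0
  have e3 := ha.inv (b z) hx
  have e4 := ha.inv (b z1) kx
  rw [Finset.mem_union, mem_T, mem_T] at hm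
  rcases hm with (h | h | h) | h | h | h
  · omega
  · omega
  · have := ha.inj h0 hx h
    omega
  · rw [h] at e0; omega
  · rw [h] at e0; omega
  · have := ha.inj h0 kx h
    rw [this, e2] at h1
    omega

theorem s2_half (ha : Iv N a) (hb : Iv N b) {z z1 : ℕ} (hz : Fr N a b z) (hz1 : Fr N b a z1)
    (hm : a z ∈ T a b z ∪ T b a z1) : a z = b (a z1) := by
  obtain ⟨h0, h1, h2, h3, h4⟩ := hz
  obtain ⟨k0, k1, k2, k3, k4⟩ := hz1
  have hx : b z < N := hb.lt z h0
  have kx : a z1 < N := ha.lt z1 k0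
  have e0 := ha.inv z h0
  have e1 := hb.inv z h0
  have e2 := ha.inv z1 k0
  have e3 := ha.inv (b z) hx
  have e4 := hb.inv (a z1) kx
  rw [Finset.mem_union, mem_T, mem_T] at hm
  rcases hm with (h | h | h) | h | h | h
  · omega
  · omega
  · have := ha.inj h0 hx h
    omega
  · rw [h] at e0
    rw [← e0] at h1
    omega
  · have := ha.inj h0 k0 h
    subst this
    omega
  · exact h

theorem s2_diff (ha : Iv N a) (hb : Iv N b) {z z1 : ℕ} (hz : Fr N a b z) (hz1 : Fr N b a z1)
    (hm : a z ∈ T a b z ∪ T b a z1) (hm1 : b z1 ∈ T b a z1 ∪ T a b z) : False := by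
  have g1 := s2_half ha hb hz hz1 hm
  have g2 := s2_half hb ha hz1 hz hm1
  obtain ⟨h0, h1, h2, h3, h4⟩ := hz
  obtain ⟨k0, k1, k2, k3, k4⟩ := hz1
  have i1 := ha.mo (b z) z h1 h0 (by omega) h2
  have i2 := hb.mo (a z1) z1 k1 k0 (by omega) k2
  omega

/-- the class of a free element of size four -/
def Q (a b : ℕ → ℕ) (z : ℕ) : Finset ℕ := {z, b z, a (b z), a z}

theorem mem_Q {z u : ℕ} : u ∈ Q a b z ↔ u = z ∨ u = b z ∨ u = a (b z) ∨ u = a z := by
  simp [Q]

theorem Q_card (ha : Iv N a) {z : ℕ} (hz : Fr N a b z) : (Q a b z).card = 4 := by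
  obtain ⟨h0, h1, h2, h3, h4⟩ := hz
  have i1 := ha.mo (b z) z h1 h0 (by omega) h2
  unfold Q
  rw [Finset.card_insert_of_notMem, Finset.card_insert_of_notMem, Finset.card_insert_of_notMem,
    Finset.card_singleton]
  · simp; omega
  · simp; omega
  · simp; omega

/-- in a class of size four the free element determines the class -/
theorem four (ha : Iv N a) (hb : Iv N b) {z : ℕ} (hz : Fr N a b z) {S : Finset ℕ}
    (hS : S.card = 4) (h1 : z ∈ S) (h2 : b z ∈ S) (h3 : a (b z) ∈ S) (h4 : a z ∈ S)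
    (h5 : b (a (b z)) ∈ S) : S = Q a b z ∧ b (a (b z)) = a z := by
  have hsub : Q a b z ⊆ S := by
    intro u hu
    rw [mem_Q] at hu
    rcases hu with rfl | rfl | rfl | rfl <;> assumption
  have hq := Q_card ha hz
  have he : Q a b z = S := Finset.eq_of_subset_of_card_le hsub (by omega)
  refine ⟨he.symm, ?_⟩
  rw [← he, mem_Q] at h5
  obtain ⟨k0, k1, k2, k3, k4⟩ := hz
  have hx : b z < N := hb.lt z k0
  have hx' : a (b z) < N := ha.lt _ hx
  rcases h5 with h | h | h | h
  · have := hb.inv _ hx'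
    rw [h] at this
    omega
  · have := hb.inj hx' k0 h
    omega
  · exact absurd h (hb.ne _ hx')
  · exact h

theorem s3_unshared (ha : Iv N a) (hb : Iv N b) {z : ℕ} (hz : Fr N a b z)
    (hd : b (a (b z)) = a z) (hy : z + 1 < N) (hya : z + 1 < a (z + 1)) :
    a (z + 1) ≠ b (z + 1) := by
  obtain ⟨h0, h1, h2, h3, h4⟩ := hz
  have hx : b z < N := hb.lt z h0
  have hx' : a (b z) < N := ha.lt _ hx
  have e1 := hb.inv z h0
  have e3 := ha.inv (b z) hx
  have i1 := ha.mo (b z) z h1 h0 (by omega) h2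
  have i2 := ha.mo z (z + 1) (by omega) hy h2 hya
  have hlt : z + 1 < a (b z) := by
    rcases Nat.lt_or_ge (z + 1) (a (b z)) with h | h
    · exact h
    · have : z + 1 = a (b z) := by omega
      rw [this, e3] at hya
      omega
  intro h
  rcases Nat.lt_or_ge (z + 1) (b (z + 1)) with h5 | h5
  · have := hb.mo (z + 1) (a (b z)) hlt hx' h5 (by omega)
    omega
  · omega

theorem s3_ab (ha : Iv N a) (hb : Iv N b) {z : ℕ} (hz : Fr N a b z)
    (hd : b (a (b z)) = a z) (hy : z + 1 < N) (hya : z + 1 < a (z + 1)) {z1 : ℕ}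
    (hz1 : Fr N a b z1) (hd1 : b (a (b z1)) = a z1) : z + 1 ∉ Q a b z1 := by
  obtain ⟨h0, h1, h2, h3, h4⟩ := hz
  obtain ⟨k0, k1, k2, k3, k4⟩ := hz1
  have hx : b z < N := hb.lt z h0
  have hx' : a (b z) < N := ha.lt _ hx
  have kx : b z1 < N := hb.lt z1 k0
  have e1 := hb.inv z h0
  have e3 := ha.inv (b z) hx
  have f0 := ha.inv z1 k0
  have f1 := hb.inv z1 k0
  have f3 := ha.inv (b z1) kx
  have i1 := ha.mo (b z) z h1 h0 (by omega) h2
  have i2 := ha.mo z (z + 1) (by omega) hy h2 hya
  have hlt : z + 1 < a (b z) := by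
    rcases Nat.lt_or_ge (z + 1) (a (b z)) with h | h
    · exact h
    · have : z + 1 = a (b z) := by omega
      rw [this, e3] at hya
      omega
  rw [mem_Q]
  rintro (h | h | h | h)
  · -- y = z1
    have h5 : b z < b (z + 1) := by
      apply hb.mc (by omega) hy h1
      rw [h]; exact k1
    rw [h] at h5
    have := k4 (b z) h5 (by omega)
    omega
  · -- y = x1
    have h5 := k4 z (by omega) h2
    have h6 : b (z + 1) = z1 := by rw [h, f1]
    have h7 := hb.mo (z + 1) (a (b z)) hlt hx' (by omega) (by omega)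
    omega
  · rw [h, f3] at hya
    omega
  · rw [h, f0] at hya
    omega

theorem s3_ba (ha : Iv N a) (hb : Iv N b) {z : ℕ} (hz : Fr N a b z)
    (hd : b (a (b z)) = a z) (hy : z + 1 < N) (hya : z + 1 < a (z + 1)) {z1 : ℕ}
    (hz1 : Fr N b a z1) (hd1 : a (b (a z1)) = b z1) : z + 1 ∉ Q b a z1 := by
  obtain ⟨h0, h1, h2, h3, h4⟩ := hz
  obtain ⟨k0, k1, k2, k3, k4⟩ := hz1
  have hx : b z < N := hb.lt z h0
  have hx' : a (b z) < N := ha.lt _ hx
  have kx : a z1 < N := ha.lt z1 k0
  have kx' : b (a z1) < N := hb.lt _ kx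
  have e1 := hb.inv z h0
  have e3 := ha.inv (b z) hx
  have f0 := hb.inv z1 k0
  have f1 := ha.inv z1 k0
  have f3 := hb.inv (a z1) kx
  have f4 := ha.inv _ kx'
  have i1 := ha.mo (b z) z h1 h0 (by omega) h2
  have i2 := ha.mo z (z + 1) (by omega) hy h2 hya
  have i3 := hb.mo (a z1) z1 k1 k0 (by omega) k2
  have hlt : z + 1 < a (b z) := by
    rcases Nat.lt_or_ge (z + 1) (a (b z)) with h | h
    · exact h
    · have : z + 1 = a (b z) := by omega
      rw [this, e3] at hya
      omega
  rw [mem_Q]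
  rintro (h | h | h | h)
  · -- y = z1, an a-closer
    rw [h] at hya
    omega
  · -- y = x1
    have h6 : a (z + 1) = z1 := by rw [h, f1]
    have h7 : b (z + 1) = b (a z1) := by rw [h]
    have h8 := hb.mo (z + 1) (a (b z)) hlt hx' (by omega) (by omega)
    omega
  · -- y = z1'
    have h6 : b (z + 1) = a z1 := by rw [h, f3]
    have h7 : b z < b (z + 1) := by
      apply hb.mc (by omega) hy h1
      omega
    have h8 := ha.mo (b z) (a z1) (by omega) kx (by omega) (by omega)
    omega
  · -- y = d1, an a-closer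
    rw [← hd1] at h
    rw [h, f4] at hya
    rw [hd1] at hya
    omega

end

end Pool.Agent.H159.SSq
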