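import Pool.Agent.H159.SSq.Bridge

/-!
# Counting shuffle squares over large alphabets: the two bounds (MP_e74ce2_co)
-/

set_option autoImplicit false

namespace Pool.Agent.H159.SSq

open Finset

theorem weight {K κ : ℝ} (hK : 0 < K) (hκ : κ ^ 2 = (K - 1) / K) {n p : ℕ} (hp : p ≤ n) :
    K ^ (n - p) * (K - 1) ^ p = K ^ n * κ ^ (2 * p) := by
  obtain ⟨d, rfl⟩ := Nat.exists_eq_add_of_le hp
  rw [pow_mul, hκ, div_pow, Nat.add_sub_cancel_left, pow_add]
  field_simp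

theorem card_A {n : ℕ} {A : Finset ℕ} (hA : Prim n A) : A.card = n := by
  have h1 := hA.2.1
  unfold pu at h1
  rw [← h1]
  congr 1
  ext x
  rw [Finset.mem_filter, Finset.mem_range]
  constructor
  · intro hx
    exact ⟨Finset.mem_range.1 (hA.1 hx), hx⟩
  · exact fun h => h.2

/-- the number of words which are shuffle squares, over `ZMod k` -/
noncomputable def cz (k n : ℕ) : ℕ := Nat.card {w : Fin (2 * n) → ZMod k // IsSSq w}

open Classical in
theorem cz_eq (k n : ℕ) [NeZero k] :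
    cz k n = (univ.filter fun w : Fin (2 * n) → ZMod k => IsSSq w).card := by
  unfold cz
  rw [Nat.card_eq_fintype_card, Fintype.card_subtype]

theorem upper (hcan : S_can) (hup : S_up) (hd : S_dyck) {k : ℕ} [NeZero k] (hk : 1 ≤ k) (n : ℕ)
    {κ : ℝ} (h0 : 0 < κ) (h1 : κ ≤ 1) (h2 : 1 ≤ κ + κ ^ 2) (hκ : κ ^ 2 = ((k : ℝ) - 1) / k) :
    (cz k n : ℝ) ≤ (k : ℝ) ^ n * (1 + κ) ^ (2 * n) := by
  classical
  have hk0 : (0 : ℝ) < k := by exact_mod_cast hk
  have hsub : (univ.filter fun w : Fin (2 * n) → ZMod k => IsSSq w) ⊆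
      (dycks n).biUnion (Cw k n) := by
    intro w hw
    rw [Finset.mem_filter] at hw
    obtain ⟨A, hA, hwA⟩ := hcan k n w hw.2
    rw [Finset.mem_biUnion]
    refine ⟨A, ?_, hwA⟩
    simp only [dycks, Finset.mem_filter, Finset.mem_powerset]
    exact ⟨hA.1, hA⟩
  have h3 : cz k n ≤ ∑ A ∈ dycks n, (Cw k n A).card := by
    rw [cz_eq]
    calc _ ≤ ((dycks n).biUnion (Cw k n)).card := Finset.card_le_card (by convert hsub)
      _ ≤ _ := Finset.card_biUnion_le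
  calc (cz k n : ℝ) ≤ ((∑ A ∈ dycks n, (Cw k n A).card : ℕ) : ℝ) := by exact_mod_cast h3
    _ = ∑ A ∈ dycks n, ((Cw k n A).card : ℝ) := by push_cast; rfl
    _ ≤ ∑ A ∈ dycks n, (k : ℝ) ^ n * κ ^ (2 * (PK n A).card) := by
        apply Finset.sum_le_sum
        intro A hA
        have hA' : Dy n A := by
          simp only [dycks, Finset.mem_filter, Finset.mem_powerset] at hA
          exact hA.2
        obtain ⟨g1, g2⟩ := hup k n A hA'
        rw [← weight hk0 hκ g1]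
        have g3 : ((Cw k n A).card : ℝ) ≤
            ((k ^ (n - (PK n A).card) * (k - 1) ^ (PK n A).card : ℕ) : ℝ) := by
          exact_mod_cast g2
        push_cast [Nat.cast_sub hk] at g3
        exact g3
    _ = (k : ℝ) ^ n * ∑ A ∈ dycks n, κ ^ (2 * (PK n A).card) := by rw [Finset.mul_sum]
    _ ≤ (k : ℝ) ^ n * (1 + κ) ^ (2 * n) :=
        mul_le_mul_of_nonneg_left (hd n κ h0 h1 h2) (by positivity)

theorem pair (hcnt : S_cnt) {k n : ℕ} [NeZero k] (hk : 1 ≤ k) (hn : 2 ≤ n) {κ t : ℝ}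
    (h0 : 0 < κ) (hκ : κ ^ 2 = ((k : ℝ) - 1) / k) (ht : t ^ 88 = (k : ℝ) - 1)
    (ht' : 6 ^ 5 ≤ t) {A B : Finset ℕ} (hA : Prim n A) (hB : Prim n B) :
    ((Cw k n A ∩ Cw k n B).card : ℝ) ≤ (k : ℝ) ^ n * (κ ^ (2 * (PU n A B).card) *
      (1 / t ^ 89) ^ (FR n A B).card * (1 / 6) ^ (SP n A B).card) := by
  have hk0 : (0 : ℝ) < k := by exact_mod_cast hk
  have ht0 : (0 : ℝ) < t := lt_of_lt_of_le (by norm_num) ht'
  rcases (Cw k n A ∩ Cw k n B).eq_empty_or_nonempty with he | ⟨w, hw⟩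
  · rw [he, Finset.card_empty]
    push_cast
    positivity
  rw [Finset.mem_inter] at hw
  have hNF := noflip k n w A B hA hB hw.1 hw.2
  obtain ⟨c1, c2⟩ := comb n A B hA hB hNF
  obtain ⟨d1, d2⟩ := hcnt k n A B hn hA hB
  have hcA := card_A hA
  have hPU : PU n A B ⊆ A := by
    intro z hz
    rw [mem_PU] at hz
    exact hz.2.2.1
  have hun : (Mn n A B ∪ PU n A B).card ≤ n :=
    (Finset.card_le_card (Finset.union_subset (d1.trans Finset.inter_subset_left) hPU)).trans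
      hcA.le
  have hui := Finset.card_union_add_card_inter (Mn n A B) (PU n A B)
  have hsd := Finset.card_sdiff_add_card_inter (Mn n A B) (PU n A B)
  set m := (Mn n A B).card
  set q := (PU n A B).card
  set r := (Mn n A B ∩ PU n A B).card
  set e := (Mn n A B \ PU n A B).card
  set F := (FR n A B).card
  set S := (SP n A B).card
  set c := (Cw k n A ∩ Cw k n B).card
  obtain ⟨J, hJ⟩ := Nat.exists_eq_add_of_le (show m ≤ n by omega)
  obtain ⟨d, hd⟩ := Nat.exists_eq_add_of_le (show q ≤ r + J by omega)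
  obtain ⟨E, hE⟩ := Nat.exists_eq_add_of_le (show 89 * F ≤ 88 * J by omega)
  have hx0 : (0 : ℝ) ≤ (k : ℝ) - 1 := by rw [← ht]; positivity
  -- the count
  have g1 : (c : ℝ) ≤ (k : ℝ) ^ e * ((k : ℝ) - 1) ^ r := by
    have : (c : ℝ) ≤ ((k ^ e * (k - 1) ^ r : ℕ) : ℝ) := by exact_mod_cast d2
    push_cast [Nat.cast_sub hk] at this
    exact this
  have g2 : (c : ℝ) * ((k : ℝ) - 1) ^ J ≤ (k : ℝ) ^ n * κ ^ (2 * q) := by
    have hq : q ≤ n := by omega
    rw [← weight hk0 hκ hq]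
    calc (c : ℝ) * ((k : ℝ) - 1) ^ J ≤ ((k : ℝ) ^ e * ((k : ℝ) - 1) ^ r) * ((k : ℝ) - 1) ^ J :=
          mul_le_mul_of_nonneg_right g1 (by positivity)
      _ = (k : ℝ) ^ e * (((k : ℝ) - 1) ^ d * ((k : ℝ) - 1) ^ q) := by
          rw [mul_assoc, ← pow_add, ← pow_add, hd, add_comm d q]
      _ ≤ (k : ℝ) ^ e * ((k : ℝ) ^ d * ((k : ℝ) - 1) ^ q) := by
          apply mul_le_mul_of_nonneg_left _ (by positivity)
          apply mul_le_mul_of_nonneg_right _ (by positivity)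
          exact pow_le_pow_left₀ hx0 (by linarith) d
      _ = (k : ℝ) ^ (n - q) * ((k : ℝ) - 1) ^ q := by
          rw [← mul_assoc, ← pow_add]
          congr 2
          omega
  have g3 : t ^ (89 * F) * 6 ^ S ≤ t ^ (88 * J) := by
    rw [hE, pow_add]
    apply mul_le_mul_of_nonneg_left _ (by positivity)
    calc (6 : ℝ) ^ S ≤ 6 ^ (5 * E) := by
          apply pow_le_pow_right₀ (by norm_num)
          omega
      _ = (6 ^ 5) ^ E := by rw [pow_mul]
      _ ≤ t ^ E := pow_le_pow_left₀ (by norm_num) ht' E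
  have g4 : 1 ≤ ((k : ℝ) - 1) ^ J * ((1 / t ^ 89) ^ F * (1 / 6) ^ S) := by
    rw [← ht, ← pow_mul, one_div_pow, one_div_pow, ← pow_mul, one_div_mul_one_div, mul_one_div,
      le_div_iff₀ (by positivity), one_mul]
    exact g3
  calc (c : ℝ) = (c : ℝ) * 1 := (mul_one _).symm
    _ ≤ (c : ℝ) * (((k : ℝ) - 1) ^ J * ((1 / t ^ 89) ^ F * (1 / 6) ^ S)) :=
        mul_le_mul_of_nonneg_left g4 (Nat.cast_nonneg c)
    _ = ((c : ℝ) * ((k : ℝ) - 1) ^ J) * ((1 / t ^ 89) ^ F * (1 / 6) ^ S) := by ring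
    _ ≤ ((k : ℝ) ^ n * κ ^ (2 * q)) * ((1 / t ^ 89) ^ F * (1 / 6) ^ S) :=
        mul_le_mul_of_nonneg_right g2 (by positivity)
    _ = _ := by ring

/-- Cauchy–Schwarz for a family of sets -/
theorem cs {α ι : Type*} [DecidableEq α] (S : Finset α) (I : Finset ι) (C : ι → Finset α)
    (hC : ∀ i ∈ I, C i ⊆ S) :
    (∑ i ∈ I, ((C i).card : ℝ)) ^ 2 ≤
      (S.card : ℝ) * ∑ i ∈ I, ∑ j ∈ I, ((C i ∩ C j).card : ℝ) := by
  have h1 : ∀ i ∈ I, ((C i).card : ℝ) = ∑ w ∈ S, if w ∈ C i then (1 : ℝ) else 0 := by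
    intro i hi
    rw [Finset.sum_boole]
    congr 2
    ext w
    rw [Finset.mem_filter]
    exact ⟨fun h => ⟨hC i hi h, h⟩, fun h => h.2⟩
  have h2 : ∀ i ∈ I, ∀ j ∈ I, ((C i ∩ C j).card : ℝ) =
      ∑ w ∈ S, (if w ∈ C i then (1 : ℝ) else 0) * (if w ∈ C j then (1 : ℝ) else 0) := by
    intro i hi j hj
    have : ∀ w, (if w ∈ C i then (1 : ℝ) else 0) * (if w ∈ C j then (1 : ℝ) else 0) =
        if w ∈ C i ∩ C j then (1 : ℝ) else 0 := by
      intro w
      by_cases g1 : w ∈ C i <;> by_cases g2 : w ∈ C j <;> simp [g1, g2]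
    simp only [this]
    rw [Finset.sum_boole]
    congr 2
    ext w
    rw [Finset.mem_filter]
    exact ⟨fun h => ⟨hC i hi (Finset.mem_inter.1 h).1, h⟩, fun h => h.2⟩
  rw [Finset.sum_congr rfl h1, Finset.sum_comm]
  have h3 : ∑ i ∈ I, ∑ j ∈ I, ((C i ∩ C j).card : ℝ) =
      ∑ w ∈ S, (∑ i ∈ I, if w ∈ C i then (1 : ℝ) else 0) ^ 2 := by
    rw [Finset.sum_congr rfl fun i hi => Finset.sum_congr rfl fun j hj => h2 i hi j hj]
    simp only [sq, Finset.sum_mul_sum]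
    rw [Finset.sum_congr rfl fun i _ => Finset.sum_comm, Finset.sum_comm]
  rw [h3]
  exact sq_sum_le_card_mul_sum_sq

theorem lower (hp : S_pairs) (hZ : S_Z) (hsq : S_sq) (hlow : S_low) (hcnt : S_cnt) {k n : ℕ}
    [NeZero k] (hk : 1 ≤ k) (hn : 2 ≤ n) {κ t : ℝ} (h0 : 1 / 2 ≤ κ) (h1 : κ ≤ 1)
    (hκ : κ ^ 2 = ((k : ℝ) - 1) / k) (ht : t ^ 88 = (k : ℝ) - 1) (ht' : 6 ^ 5 ≤ t) :
    ((k : ℝ) ^ n * (κ ^ 2 * (1 + κ) ^ (2 * n - 2) / (n : ℝ) ^ 3)) ^ 2 ≤
      (cz k n : ℝ) * ((k : ℝ) ^ n * (1 + κ + 2 * (1 / t ^ 89) / κ) ^ (2 * n)) := by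
  classical
  have hk0 : (0 : ℝ) < k := by exact_mod_cast hk
  have hκ0 : 0 < κ := by linarith
  have ht0 : (0 : ℝ) < t := lt_of_lt_of_le (by norm_num) ht'
  have hpr : ∀ A ∈ prims n, Prim n A := by
    intro A hA
    simp only [prims, Finset.mem_filter, Finset.mem_powerset] at hA
    exact hA.2
  have hN : (k : ℝ) ^ n * (κ ^ 2 * (1 + κ) ^ (2 * n - 2) / (n : ℝ) ^ 3) ≤
      ∑ A ∈ prims n, ((Cw k n A).card : ℝ) := by
    calc _ ≤ (k : ℝ) ^ n * ∑ A ∈ prims n, κ ^ (2 * (PK n A).card) :=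
          mul_le_mul_of_nonneg_left (hZ n κ (by omega) hκ0 h1) (by positivity)
      _ = ∑ A ∈ prims n, (k : ℝ) ^ n * κ ^ (2 * (PK n A).card) := Finset.mul_sum _ _ _
      _ ≤ _ := by
          apply Finset.sum_le_sum
          intro A hA
          obtain ⟨g1, g2⟩ := hlow k n A (hpr A hA)
          rw [← weight hk0 hκ g1]
          have g3 : ((k ^ (n - (PK n A).card) * (k - 1) ^ (PK n A).card : ℕ) : ℝ) ≤
              ((Cw k n A).card : ℝ) := by exact_mod_cast g2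
          push_cast [Nat.cast_sub hk] at g3
          exact g3
  have hcs := cs (univ.filter fun w : Fin (2 * n) → ZMod k => IsSSq w) (prims n) (Cw k n) (by
    intro A hA w hw
    rw [Finset.mem_filter]
    exact ⟨Finset.mem_univ _, hsq k n w A (hpr A hA) hw⟩)
  have hP : ∑ A ∈ prims n, ∑ B ∈ prims n, ((Cw k n A ∩ Cw k n B).card : ℝ) ≤
      (k : ℝ) ^ n * (1 + κ + 2 * (1 / t ^ 89) / κ) ^ (2 * n) := by
    calc _ ≤ ∑ A ∈ prims n, ∑ B ∈ prims n, (k : ℝ) ^ n * (κ ^ (2 * (PU n A B).card) *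
          (1 / t ^ 89) ^ (FR n A B).card * (1 / 6) ^ (SP n A B).card) := by
          apply Finset.sum_le_sum
          intro A hA
          apply Finset.sum_le_sum
          intro B hB
          exact pair hcnt hk hn hκ0 hκ ht ht' (hpr A hA) (hpr B hB)
      _ = (k : ℝ) ^ n * ∑ A ∈ prims n, ∑ B ∈ prims n, κ ^ (2 * (PU n A B).card) *
          (1 / t ^ 89) ^ (FR n A B).card * (1 / 6) ^ (SP n A B).card := by
          rw [Finset.mul_sum]
          apply Finset.sum_congr rfl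
          intro A _
          rw [Finset.mul_sum]
      _ ≤ _ := by
          apply mul_le_mul_of_nonneg_left _ (by positivity)
          exact hp n κ (1 / t ^ 89) (1 / 6) h0 h1 (by positivity) (by norm_num) le_rfl
  rw [cz_eq]
  calc _ ≤ (∑ A ∈ prims n, ((Cw k n A).card : ℝ)) ^ 2 :=
        pow_le_pow_left₀ (by positivity) hN 2
    _ ≤ _ := hcs
    _ ≤ _ := by
        refine (mul_le_mul_of_nonneg_left hP (by positivity)).trans (le_of_eq ?_)
        congr 3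

end Pool.Agent.H159.SSq
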