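import Mathlib

/-!
# Counting shuffle squares over large alphabets (MP_e74ce2_co): definitions and statements

Paths are finite sets `A` of natural numbers (the positions of the pushes) inside `range (2 n)`, the
positions outside `A` are the pops.  The `i`-th push is matched with the `i`-th pop.
-/

set_option autoImplicit false

namespace Pool.Agent.H159.SSq

open Finset

/-- `w` is a shuffle square: its positions are split into two increasing sequences `f`, `g` along
which `w` reads the same word of length `n`. -/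
def IsSSq {α : Type*} {n : ℕ} (w : Fin (2 * n) → α) : Prop :=
  ∃ f g : Fin n → Fin (2 * n), StrictMono f ∧ StrictMono g ∧ (∀ i j, f i ≠ g j) ∧
    ∀ i, w (f i) = w (g i)

/-- the number of shuffle squares of semi-length `n` over an alphabet with `k` letters -/
noncomputable def cnt (k n : ℕ) : ℕ := Nat.card {w : Fin (2 * n) → Fin k // IsSSq w}

/-- number of pushes before time `t` -/
def pu (A : Finset ℕ) (t : ℕ) : ℕ := ((range t).filter (· ∈ A)).card

/-- number of pops before time `t` -/
def po (A : Finset ℕ) (t : ℕ) : ℕ := ((range t).filter (· ∉ A)).card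

/-- the push `s` is matched with the pop `t` -/
def M (A : Finset ℕ) (s t : ℕ) : Prop := s ∈ A ∧ t ∉ A ∧ pu A s = po A t

/-- Dyck paths of length `2 n` -/
def Dy (n : ℕ) (A : Finset ℕ) : Prop :=
  A ⊆ range (2 * n) ∧ pu A (2 * n) = n ∧ ∀ t ≤ 2 * n, po A t ≤ pu A t

/-- primitive Dyck paths of length `2 n`: the height is positive at the times `1, …, 2 n - 1` -/
def Prim (n : ℕ) (A : Finset ℕ) : Prop :=
  A ⊆ range (2 * n) ∧ pu A (2 * n) = n ∧ ∀ t, 1 ≤ t → t < 2 * n → po A t < pu A t

/-- the peaks: a push at a positive height followed by a pop -/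
def PK (n : ℕ) (A : Finset ℕ) : Finset ℕ :=
  (range (2 * n)).filter fun t => t ∈ A ∧ t + 1 ∉ A ∧ po A t < pu A t

/-- a word of length `N` as a function on the natural numbers -/
def ext {k : ℕ} {N : ℕ} (w : Fin N → ZMod k) (t : ℕ) : ZMod k :=
  if h : t < N then w ⟨t, h⟩ else 0

/-- `w` is compatible with the parse `A` and canonical for it (the letters of a peak differ) -/
def Can {k n : ℕ} (A : Finset ℕ) (w : Fin (2 * n) → ZMod k) : Prop :=
  (∀ s t, s < 2 * n → t < 2 * n → M A s t → ext w s = ext w t) ∧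
    ∀ t ∈ PK n A, t + 1 < 2 * n → ext w t ≠ ext w (t + 1)

open Classical in
/-- the set of words which are compatible with `A` and canonical for it -/
noncomputable def Cw (k n : ℕ) [NeZero k] (A : Finset ℕ) : Finset (Fin (2 * n) → ZMod k) :=
  univ.filter fun w => Can A w

/-- at time `t` the two parses have the same front element -/
def Ub (A B : Finset ℕ) (t : ℕ) : Prop :=
  ∃ x < t, x ∈ A ∧ x ∈ B ∧ pu A x = po A t ∧ pu B x = po B t

open Classical in
/-- free times: the fronts are equal and the steps differ -/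
noncomputable def FR (n : ℕ) (A B : Finset ℕ) : Finset ℕ :=
  (range (2 * n)).filter fun t => 1 ≤ t ∧ Ub A B t ∧ ¬ (t ∈ A ↔ t ∈ B)

open Classical in
/-- special times: the fronts differ, and not both paths push -/
noncomputable def SP (n : ℕ) (A B : Finset ℕ) : Finset ℕ :=
  (range (2 * n)).filter fun t => 1 ≤ t ∧ ¬ Ub A B t ∧ ¬ (t ∈ A ∧ t ∈ B)

open Classical in
/-- common peaks with equal fronts -/
noncomputable def PU (n : ℕ) (A B : Finset ℕ) : Finset ℕ :=
  (range (2 * n)).filter fun t => t + 1 < 2 * n ∧ t ∈ A ∧ t ∈ B ∧ t + 1 ∉ A ∧ t + 1 ∉ B ∧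
    Ub A B (t + 1)

/-- no free time is a flip of two adjacent steps -/
def NoFlip (n : ℕ) (A B : Finset ℕ) : Prop :=
  ∀ z ∈ FR n A B, (z ∈ A → z + 1 ∈ A) ∧ (z ∈ B → z + 1 ∈ B)

/-- two positions are connected by matched pairs of the two parses -/
def Conn (n : ℕ) (A B : Finset ℕ) : ℕ → ℕ → Prop :=
  Relation.EqvGen fun s t => s < 2 * n ∧ t < 2 * n ∧ (M A s t ∨ M B s t)

open Classical in
/-- the smallest elements of the connected components -/
noncomputable def Mn (n : ℕ) (A B : Finset ℕ) : Finset ℕ :=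
  (range (2 * n)).filter fun v => ∀ u, Conn n A B u v → v ≤ u

open Classical in
noncomputable def dycks (n : ℕ) : Finset (Finset ℕ) := (range (2 * n)).powerset.filter (Dy n)

open Classical in
noncomputable def prims (n : ℕ) : Finset (Finset ℕ) := (range (2 * n)).powerset.filter (Prim n)

/-! ## The statements -/

/-- core: components of two parses -/
def S_comb : Prop := ∀ (n : ℕ) (A B : Finset ℕ), Prim n A → Prim n B → NoFlip n A B →
  45 * (FR n A B).card + 44 * (Mn n A B).card ≤ 44 * n ∧
  (FR n A B).card + (SP n A B).card + 4 * (Mn n A B).card ≤ 4 * n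

/-- transfer bound for pairs of primitive paths -/
def S_pairs : Prop := ∀ (n : ℕ) (κ u v : ℝ), 1 / 2 ≤ κ → κ ≤ 1 → 0 ≤ u → 0 ≤ v → v ≤ 1 / 6 →
  ∑ A ∈ prims n, ∑ B ∈ prims n,
    κ ^ (2 * (PU n A B).card) * u ^ (FR n A B).card * v ^ (SP n A B).card ≤
      (1 + κ + 2 * u / κ) ^ (2 * n)

/-- transfer bound for Dyck paths -/
def S_dyck : Prop := ∀ (n : ℕ) (κ : ℝ), 0 < κ → κ ≤ 1 → 1 ≤ κ + κ ^ 2 →
  ∑ A ∈ dycks n, κ ^ (2 * (PK n A).card) ≤ (1 + κ) ^ (2 * n)

/-- lower bound for the weighted number of primitive paths -/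
def S_Z : Prop := ∀ (n : ℕ) (κ : ℝ), 1 ≤ n → 0 < κ → κ ≤ 1 →
  κ ^ 2 * (1 + κ) ^ (2 * n - 2) / (n : ℝ) ^ 3 ≤ ∑ A ∈ prims n, κ ^ (2 * (PK n A).card)

/-- every shuffle square has a canonical parse -/
def S_can : Prop := ∀ (k n : ℕ) [NeZero k] (w : Fin (2 * n) → ZMod k), IsSSq w →
  ∃ A, Dy n A ∧ w ∈ Cw k n A

/-- words with a parse are shuffle squares -/
def S_sq : Prop := ∀ (k n : ℕ) [NeZero k] (w : Fin (2 * n) → ZMod k) (A : Finset ℕ), Prim n A →
  w ∈ Cw k n A → IsSSq w

/-- a canonical word for two parses excludes flips -/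
def S_noflip : Prop := ∀ (k n : ℕ) [NeZero k] (w : Fin (2 * n) → ZMod k) (A B : Finset ℕ),
  Prim n A → Prim n B → w ∈ Cw k n A → w ∈ Cw k n B → NoFlip n A B

/-- upper bound for the number of words of one parse -/
def S_up : Prop := ∀ (k n : ℕ) [NeZero k] (A : Finset ℕ), Dy n A →
  (PK n A).card ≤ n ∧ (Cw k n A).card ≤ k ^ (n - (PK n A).card) * (k - 1) ^ (PK n A).card

/-- lower bound for the number of words of one parse -/
def S_low : Prop := ∀ (k n : ℕ) [NeZero k] (A : Finset ℕ), Prim n A →
  (PK n A).card ≤ n ∧ k ^ (n - (PK n A).card) * (k - 1) ^ (PK n A).card ≤ (Cw k n A).card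

/-- upper bound for the number of common words of two parses -/
def S_cnt : Prop := ∀ (k n : ℕ) [NeZero k] (A B : Finset ℕ), 2 ≤ n → Prim n A → Prim n B →
  Mn n A B ⊆ A ∩ B ∧ (Cw k n A ∩ Cw k n B).card ≤
    k ^ ((Mn n A B) \ (PU n A B)).card * (k - 1) ^ ((Mn n A B) ∩ (PU n A B)).card

/-- the growth rate exists -/
def S_lim : Prop := ∀ k : ℕ, 1 ≤ k → ∃ L : ℝ,
  Filter.Tendsto (fun n : ℕ => (cnt k n : ℝ) ^ ((1 : ℝ) / n)) Filter.atTop (nhds L)

/-! ## Basic facts -/

theorem pu_add_po (A : Finset ℕ) (t : ℕ) : pu A t + po A t = t := by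
  have := Finset.card_filter_add_card_filter_not (s := range t) (fun x => x ∈ A)
  simpa [pu, po] using this

theorem pu_succ (A : Finset ℕ) (t : ℕ) : pu A (t + 1) = pu A t + if t ∈ A then 1 else 0 := by
  unfold pu
  rw [Finset.range_add_one, Finset.filter_insert]
  split_ifs with h
  · rw [Finset.card_insert_of_notMem (by simp)]
  · rfl

theorem po_succ (A : Finset ℕ) (t : ℕ) : po A (t + 1) = po A t + if t ∈ A then 0 else 1 := by
  have h1 := pu_add_po A t
  have h2 := pu_add_po A (t + 1)
  have h3 := pu_succ A t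
  split_ifs at * <;> omega

theorem pu_mono (A : Finset ℕ) {s t : ℕ} (h : s ≤ t) : pu A s ≤ pu A t := by
  induction t, h using Nat.le_induction with
  | base => exact le_rfl
  | succ t _ ih => rw [pu_succ]; omega

theorem po_mono (A : Finset ℕ) {s t : ℕ} (h : s ≤ t) : po A s ≤ po A t := by
  induction t, h using Nat.le_induction with
  | base => exact le_rfl
  | succ t _ ih => rw [po_succ]; omega

/-- the `i`-th push exists -/
theorem exists_push (A : Finset ℕ) {t i : ℕ} (h : i < pu A t) : ∃ s < t, s ∈ A ∧ pu A s = i := by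
  induction t with
  | zero => simp [pu] at h
  | succ t ih =>
    rw [pu_succ] at h
    by_cases h1 : i < pu A t
    · obtain ⟨s, hs, h2⟩ := ih h1
      exact ⟨s, by omega, h2⟩
    · by_cases ht : t ∈ A
      · rw [if_pos ht] at h
        exact ⟨t, by omega, ht, by omega⟩
      · rw [if_neg ht] at h
        omega

/-- the `i`-th pop exists -/
theorem exists_pop (A : Finset ℕ) {t i : ℕ} (h : i < po A t) : ∃ s < t, s ∉ A ∧ po A s = i := by
  induction t with
  | zero => simp [po] at h
  | succ t ih =>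
    rw [po_succ] at h
    by_cases h1 : i < po A t
    · obtain ⟨s, hs, h2⟩ := ih h1
      exact ⟨s, by omega, h2⟩
    · by_cases ht : t ∈ A
      · rw [if_pos ht] at h
        omega
      · rw [if_neg ht] at h
        exact ⟨t, by omega, ht, by omega⟩

theorem pu_lt (A : Finset ℕ) {s t : ℕ} (hs : s ∈ A) (h : s < t) : pu A s < pu A t := by
  have h1 := pu_mono A (show s + 1 ≤ t by omega)
  rw [pu_succ, if_pos hs] at h1
  omega

theorem po_lt (A : Finset ℕ) {s t : ℕ} (hs : s ∉ A) (h : s < t) : po A s < po A t := by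
  have h1 := po_mono A (show s + 1 ≤ t by omega)
  rw [po_succ, if_neg hs] at h1
  omega

/-- `pu A t` and `po A t` depend only on the part of `A` below `t` -/
theorem pu_congr {A B : Finset ℕ} {t : ℕ} (h : ∀ s < t, s ∈ A ↔ s ∈ B) : pu A t = pu B t := by
  unfold pu
  congr 1
  apply Finset.filter_congr
  intro s hs
  exact h s (Finset.mem_range.1 hs)

theorem po_congr {A B : Finset ℕ} {t : ℕ} (h : ∀ s < t, s ∈ A ↔ s ∈ B) : po A t = po B t := by
  have h1 := pu_congr h
  have h2 := pu_add_po A t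
  have h3 := pu_add_po B t
  omega

theorem Prim.dy {n : ℕ} {A : Finset ℕ} (h : Prim n A) : Dy n A := by
  refine ⟨h.1, h.2.1, fun t ht => ?_⟩
  rcases Nat.eq_zero_or_pos t with h0 | h0
  · subst h0; simp [po]
  rcases Nat.lt_or_ge t (2 * n) with h1 | h1
  · exact (h.2.2 t h0 h1).le
  · have h2 : t = 2 * n := le_antisymm ht h1
    have h3 := h.2.1
    have h4 := pu_add_po A (2 * n)
    subst h2
    omega

end Pool.Agent.H159.SSq
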